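import Pool.Agent.P.MP_9682d1_al.E22.Chk

set_option autoImplicit false
set_option maxRecDepth 200000

namespace Pool.Agent.P.MP_9682d1_al.E22

theorem ok2_aXbXcX : Ok 2 1 [false, true, false, true, false, true] :=
  ⟨
    [⟨1, [], [0], 1, [[1], [2, 1], [3], [4]], [0]⟩, ⟨1, [3], [0], 1, [[0], [1], [2], [3]], [1]⟩,
     ⟨1, [1], [0], 1, [[0], [1], [3], [4]], [1]⟩,
     ⟨1, [], [], 1, [[1], [1, 3], [1, 4], [2]], [0]⟩,
     ⟨1, [], [], 1, [[1], [2, 1], [3], [4, 1]], [0]⟩,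
     ⟨1, [2], [], 1, [[0], [1], [2], [4, 1]], [1]⟩,
     ⟨1, [1], [], 1, [[0], [1], [1, 3], [4]], [1]⟩,
     ⟨1, [3], [], 1, [[0], [1], [2, 1], [3]], [1]⟩,
     ⟨1, [3], [], 1, [[1], [1], [1], [3], [0]], [2]⟩,
     ⟨1, [], [], 1, [[1], [3], [2], [1], [4], [1]], [0]⟩],
    by decide +kernel⟩

theorem ok3_abXc : Ok 3 1 [false, false, true, false] :=
  ⟨
    [⟨1, [], [], 1, [[0], [1], [2], [3]], [4]⟩],
    by decide +kernel⟩

theorem ok3_abXX : Ok 3 1 [false, false, true, true] :=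
  ⟨
    [⟨1, [], [], 1, [[1], [1], [2], [3]], [0]⟩],
    by decide +kernel⟩

theorem ok3_aXbX : Ok 3 1 [false, true, false, true] :=
  ⟨
    [⟨-1, [], [], 1, [[0], [1], [1], [3]], [2]⟩],
    by decide +kernel⟩

theorem ok3_aXXX : Ok 3 1 [false, true, true, true] :=
  ⟨
    [⟨-1, [], [], 1, [[0], [1], [1], [2]], [1]⟩],
    by decide +kernel⟩

theorem ok3_aXXbX : Ok 3 1 [false, true, true, false, true] :=
  ⟨
    [⟨-1, [], [], 1, [[1], [1], [1, 3], [2]], [0]⟩, ⟨-1, [1], [], 1, [[0], [1], [1], [3]], [1]⟩,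
     ⟨-1, [], [0], 1, [[0], [1], [1], [2]], [3]⟩],
    by decide +kernel⟩

theorem ok3_XXXX : Ok 3 1 [true, true, true, true] :=
  ⟨
    [⟨1, [], [], 0, [], []⟩],
    by decide +kernel⟩

theorem ok0_abcX : Ok 0 27000 [false, false, false, true] :=
  ⟨
    [⟨4500, [], [], 1, [[1], [2], [3], [4]], [0]⟩],
    by decide +kernel⟩

theorem ok0_aXbX : Ok 0 27000 [false, true, false, true] :=
  ⟨
    [⟨-2700, [], [], 1, [[0], [1], [1], [3]], [2]⟩, ⟨-4050, [], [], 1, [[0], [1], [2], [3]], [1]⟩],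
    by decide +kernel⟩

theorem ok0_aXbcX : Ok 0 27000 [false, true, false, false, true] :=
  ⟨
    [⟨-6750, [2], [], 1, [[1], [1], [2], [4]], [0]⟩,
     ⟨10800, [], [0], 1, [[1], [2], [3], [4]], [0]⟩,
     ⟨3375, [], [3], 1, [[1], [1], [2], [3]], [0]⟩,
     ⟨3375, [], [2], 1, [[1], [1], [2], [4]], [0]⟩,
     ⟨-9450, [3], [], 1, [[1], [1], [2], [3]], [0]⟩,
     ⟨13500, [], [1], 1, [[1], [1], [3], [4]], [0]⟩,
     ⟨2700, [3], [], 1, [[0], [1], [1], [3]], [2]⟩, ⟨2700, [], [0], 1, [[0], [1], [3], [4]], [2]⟩],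
    by decide +kernel⟩

theorem ok0_abXX : Ok 0 27000 [false, false, true, true] :=
  ⟨
    [⟨6750, [], [], 1, [[1], [1], [2], [3]], [0]⟩],
    by decide +kernel⟩

theorem ok0_XaXX : Ok 0 27000 [true, false, true, true] :=
  ⟨
    [⟨1800, [], [], 1, [[1], [1], [1], [2]], [0]⟩, ⟨2700, [], [], 1, [[0], [1], [1], [2]], [1]⟩],
    by decide +kernel⟩

theorem ok0_XXXX : Ok 0 27000 [true, true, true, true] :=
  ⟨
    [⟨27000, [], [], 0, [], []⟩],
    by decide +kernel⟩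

end Pool.Agent.P.MP_9682d1_al.E22
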