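import Pool.Agent.P.MP_9682d1_al.E22.Chk

set_option autoImplicit false
set_option maxRecDepth 200000

namespace Pool.Agent.P.MP_9682d1_al.E22

theorem ok5_aXbXcXdX : Ok 5 1 [false, true, false, true, false, true, false, true] :=
  ⟨
    [⟨-2, [1], [0, 0, 0], 1, [[1], [3], [4], [5]], [0]⟩,
     ⟨2, [1, 0], [0, 0], 1, [[1], [3], [4], [5]], [0]⟩,
     ⟨-1, [], [0, 4, 0, 0], 1, [[1], [2], [3], [4]], [0]⟩,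
     ⟨-1, [], [0, 0, 4, 2], 1, [[1], [1], [2], [4]], [0]⟩,
     ⟨2, [], [0, 0, 3, 0], 1, [[1], [2], [3], [5]], [0]⟩,
     ⟨-1, [3, 1, 4], [2], 1, [[1], [1], [1], [1]], [0]⟩,
     ⟨1, [], [0, 0, 0, 3], 1, [[1], [2], [3], [5]], [0]⟩,
     ⟨-1, [1, 0, 2], [0], 1, [[1], [1], [4], [5]], [0]⟩,
     ⟨1, [4, 1], [3, 0], 1, [[1], [1], [1], [3]], [0]⟩,
     ⟨1, [], [1, 0, 2, 0], 1, [[1], [1], [4], [5]], [0]⟩,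
     ⟨1, [], [2, 0, 0, 3], 1, [[1], [1], [2], [5]], [0]⟩,
     ⟨-2, [3, 0, 2, 0], [], 1, [[1], [1], [2], [5]], [0]⟩,
     ⟨-2, [], [4, 0, 2, 0], 1, [[1], [1], [2], [4]], [0]⟩,
     ⟨-2, [3], [1, 0, 0], 1, [[1], [1], [3], [5]], [0]⟩,
     ⟨-2, [2, 3], [0, 4], 1, [[1], [1], [1], [2]], [0]⟩,
     ⟨-2, [], [4, 0, 0, 0], 1, [[1], [2], [3], [4]], [0]⟩,
     ⟨-2, [3, 1, 0], [4], 1, [[1], [1], [1], [3]], [0]⟩,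
     ⟨-1, [3, 2], [4, 1], 1, [[1], [1], [1], [1]], [0]⟩,
     ⟨1, [1, 0, 2], [4], 1, [[1], [1], [1], [4]], [0]⟩,
     ⟨2, [2, 1, 0], [0], 1, [[1], [1], [4], [5]], [0]⟩,
     ⟨2, [1], [0, 2, 3], 1, [[1], [1], [1], [5]], [0]⟩,
     ⟨2, [2, 0], [0, 0], 1, [[1], [2], [4], [5]], [0]⟩,
     ⟨-2, [2, 0, 1], [4], 1, [[1], [1], [1], [4]], [0]⟩,
     ⟨2, [4, 1, 3], [0], 1, [[1], [1], [1], [3]], [0]⟩,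
     ⟨-1, [], [2, 0, 4, 0], 1, [[1], [1], [2], [4]], [0]⟩,
     ⟨1, [2], [1, 0, 0], 1, [[1], [1], [4], [5]], [0]⟩,
     ⟨-1, [4, 2, 3, 0], [], 1, [[1], [1], [1], [2]], [0]⟩,
     ⟨1, [1], [4, 0, 2], 1, [[1], [1], [1], [4]], [0]⟩,
     ⟨1, [], [0, 4, 1, 0], 1, [[1], [1], [3], [4]], [0]⟩,
     ⟨1, [], [0, 2, 0, 0], 1, [[1], [2], [4], [5]], [0]⟩,
     ⟨2, [2, 1, 0, 0], [], 1, [[1], [1], [4], [5]], [0]⟩,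
     ⟨-1, [1, 0], [3, 0], 1, [[1], [1], [3], [5]], [0]⟩,
     ⟨-1, [], [0, 3, 0, 0], 1, [[1], [2], [3], [5]], [0]⟩,
     ⟨1, [2, 1], [0, 0], 1, [[1], [1], [4], [5]], [0]⟩,
     ⟨2, [], [3, 0, 0, 4], 1, [[1], [1], [2], [3]], [0]⟩,
     ⟨-2, [], [0, 3, 2, 0], 1, [[1], [1], [2], [5]], [0]⟩,
     ⟨2, [1], [0, 0, 3], 1, [[1], [1], [3], [5]], [0]⟩,
     ⟨-1, [3, 0, 4], [2], 1, [[1], [1], [1], [2]], [0]⟩,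
     ⟨-1, [4, 2, 0], [0], 1, [[1], [1], [2], [4]], [0]⟩,
     ⟨1, [1], [3, 0, 0], 1, [[1], [1], [3], [5]], [0]⟩,
     ⟨-1, [], [0, 0, 1, 3], 1, [[1], [1], [3], [5]], [0]⟩,
     ⟨-2, [4, 0], [0, 2], 1, [[1], [1], [2], [4]], [0]⟩,
     ⟨1, [], [0, 0, 0, 4], 1, [[1], [2], [3], [4]], [0]⟩,
     ⟨-1, [4, 0], [0, 1], 1, [[1], [1], [3], [4]], [0]⟩,
     ⟨2, [], [4, 0, 0, 3], 1, [[1], [1], [2], [3]], [0]⟩,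
     ⟨-1, [], [4, 0, 0, 2], 1, [[1], [1], [2], [4]], [0]⟩,
     ⟨-2, [2, 0], [1, 0], 1, [[1], [1], [4], [5]], [0]⟩,
     ⟨1, [3, 1, 0, 0], [], 1, [[1], [1], [3], [5]], [0]⟩,
     ⟨-1, [4], [3, 1, 0], 1, [[1], [1], [1], [3]], [0]⟩,
     ⟨-1, [], [0, 0, 2, 0], 1, [[1], [2], [4], [5]], [0]⟩,
     ⟨1, [3, 0, 1], [0], 1, [[1], [1], [3], [5]], [0]⟩,
     ⟨-2, [1], [0, 3, 0], 1, [[1], [1], [3], [5]], [0]⟩,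
     ⟨1, [], [0, 0, 0, 0], 1, [[2], [3], [4], [5]], [0]⟩,
     ⟨2, [3, 1, 0], [2], 1, [[1], [1], [1], [5]], [0]⟩,
     ⟨-2, [2, 1], [4, 0], 1, [[1], [1], [1], [4]], [0]⟩,
     ⟨2, [], [0, 1, 0, 0], 1, [[1], [3], [4], [5]], [0]⟩,
     ⟨-1, [1, 0], [4, 0], 1, [[1], [1], [3], [4]], [0]⟩,
     ⟨-1, [], [1, 0, 0, 3], 1, [[1], [1], [3], [5]], [0]⟩,
     ⟨-2, [2, 0], [3, 0], 1, [[1], [1], [2], [5]], [0]⟩,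
     ⟨1, [3, 4, 0], [0], 1, [[1], [1], [2], [3]], [0]⟩,
     ⟨1, [2, 4, 0, 0], [], 1, [[1], [1], [2], [4]], [0]⟩,
     ⟨2, [3, 2, 1], [0], 1, [[1], [1], [1], [5]], [0]⟩,
     ⟨-2, [2], [0, 3, 0], 1, [[1], [1], [2], [5]], [0]⟩,
     ⟨2, [2, 0, 1], [0], 1, [[1], [1], [4], [5]], [0]⟩,
     ⟨-2, [], [2, 0, 0, 0], 1, [[1], [2], [4], [5]], [0]⟩,
     ⟨2, [3, 0, 2], [4], 1, [[1], [1], [1], [2]], [0]⟩,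
     ⟨-2, [2], [4, 0, 3], 1, [[1], [1], [1], [2]], [0]⟩,
     ⟨-2, [4], [0, 0, 2], 1, [[1], [1], [2], [4]], [0]⟩,
     ⟨-2, [], [0, 3, 0, 2], 1, [[1], [1], [2], [5]], [0]⟩,
     ⟨2, [], [2, 4, 0, 0], 1, [[1], [1], [2], [4]], [0]⟩,
     ⟨-2, [4, 0, 2], [3], 1, [[1], [1], [1], [2]], [0]⟩,
     ⟨-2, [3], [0, 4, 0], 1, [[1], [1], [2], [3]], [0]⟩,
     ⟨-1, [2], [0, 0, 4], 1, [[1], [1], [2], [4]], [0]⟩,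
     ⟨2, [], [3, 1, 0, 0], 1, [[1], [1], [3], [5]], [0]⟩,
     ⟨-1, [], [3, 4, 0, 0], 1, [[1], [1], [2], [3]], [0]⟩,
     ⟨2, [], [0, 2, 0, 1], 1, [[1], [1], [4], [5]], [0]⟩,
     ⟨-2, [2, 3], [0, 0], 1, [[1], [1], [2], [5]], [0]⟩,
     ⟨-2, [], [3, 0, 4, 0], 1, [[1], [1], [2], [3]], [0]⟩,
     ⟨-2, [4, 0, 2], [0], 1, [[1], [1], [2], [4]], [0]⟩,
     ⟨1, [2, 3], [4, 0], 1, [[1], [1], [1], [2]], [0]⟩,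
     ⟨-2, [1], [0, 4, 0], 1, [[1], [1], [3], [4]], [0]⟩,
     ⟨1, [3, 0], [1, 0], 1, [[1], [1], [3], [5]], [0]⟩,
     ⟨2, [], [0, 0, 0, 2], 1, [[1], [2], [4], [5]], [0]⟩,
     ⟨-2, [2], [0, 0, 0], 1, [[1], [2], [4], [5]], [0]⟩,
     ⟨-1, [4], [0, 2, 0], 1, [[1], [1], [2], [4]], [0]⟩,
     ⟨-2, [], [1, 0, 0, 4], 1, [[1], [1], [3], [4]], [0]⟩,
     ⟨2, [1, 0], [2, 0], 1, [[1], [1], [4], [5]], [0]⟩,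
     ⟨1, [1, 0, 4, 3], [], 1, [[1], [1], [1], [3]], [0]⟩,
     ⟨1, [], [2, 0, 1, 0], 1, [[1], [1], [4], [5]], [0]⟩,
     ⟨-2, [2], [4, 0, 1], 1, [[1], [1], [1], [4]], [0]⟩,
     ⟨2, [], [0, 1, 0, 3], 1, [[1], [1], [3], [5]], [0]⟩,
     ⟨1, [3, 0], [0, 0], 1, [[1], [2], [3], [5]], [0]⟩,
     ⟨2, [4, 3], [0, 2], 1, [[1], [1], [1], [2]], [0]⟩,
     ⟨-2, [2], [3, 0, 4], 1, [[1], [1], [1], [2]], [0]⟩,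
     ⟨-2, [2, 4], [0, 0], 1, [[1], [1], [2], [4]], [0]⟩,
     ⟨-2, [3, 1], [2, 0], 1, [[1], [1], [1], [5]], [0]⟩,
     ⟨2, [3, 4], [0, 0], 1, [[1], [1], [2], [3]], [0]⟩,
     ⟨-2, [1, 3], [0, 0], 1, [[1], [1], [3], [5]], [0]⟩,
     ⟨-1, [3], [0, 0, 0], 1, [[1], [2], [3], [5]], [0]⟩,
     ⟨-2, [3, 2, 0], [0], 1, [[1], [1], [2], [5]], [0]⟩,
     ⟨2, [3, 4], [0, 1], 1, [[1], [1], [1], [3]], [0]⟩,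
     ⟨2, [4, 0, 3], [0], 1, [[1], [1], [2], [3]], [0]⟩,
     ⟨2, [2, 0, 4, 3], [], 1, [[1], [1], [1], [2]], [0]⟩,
     ⟨1, [4, 0], [2, 0], 1, [[1], [1], [2], [4]], [0]⟩,
     ⟨2, [2], [0, 0, 3], 1, [[1], [1], [2], [5]], [0]⟩,
     ⟨-1, [2, 0], [4, 0], 1, [[1], [1], [2], [4]], [0]⟩,
     ⟨-1, [2], [0, 0, 1], 1, [[1], [1], [4], [5]], [0]⟩,
     ⟨2, [4], [0, 3, 0], 1, [[1], [1], [2], [3]], [0]⟩,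
     ⟨-1, [3, 1, 0, 4], [], 1, [[1], [1], [1], [3]], [0]⟩,
     ⟨-2, [1], [4, 0, 0], 1, [[1], [1], [3], [4]], [0]⟩,
     ⟨2, [], [0, 0, 1, 0], 1, [[1], [3], [4], [5]], [0]⟩,
     ⟨1, [4, 0, 1, 0], [], 1, [[1], [1], [3], [4]], [0]⟩,
     ⟨-2, [3, 0], [0, 1], 1, [[1], [1], [3], [5]], [0]⟩,
     ⟨-1, [2, 0], [0, 1], 1, [[1], [1], [4], [5]], [0]⟩,
     ⟨-2, [1, 0, 3, 0], [], 1, [[1], [1], [3], [5]], [0]⟩,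
     ⟨1, [], [1, 0, 3, 0], 1, [[1], [1], [3], [5]], [0]⟩,
     ⟨-2, [3, 0, 2], [0], 1, [[1], [1], [2], [5]], [0]⟩,
     ⟨-2, [2, 0, 4, 0], [], 1, [[1], [1], [2], [4]], [0]⟩,
     ⟨2, [3, 4], [1, 0], 1, [[1], [1], [1], [3]], [0]⟩,
     ⟨-2, [], [4, 0, 3, 0], 1, [[1], [1], [2], [3]], [0]⟩,
     ⟨-1, [], [3, 0, 0, 2], 1, [[1], [1], [2], [5]], [0]⟩,
     ⟨-2, [3, 4, 0, 2], [], 1, [[1], [1], [1], [2]], [0]⟩,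
     ⟨1, [3, 2, 0, 0], [], 1, [[1], [1], [2], [5]], [0]⟩,
     ⟨1, [4, 3, 0, 1], [], 1, [[1], [1], [1], [3]], [0]⟩,
     ⟨2, [], [0, 3, 0, 1], 1, [[1], [1], [3], [5]], [0]⟩,
     ⟨2, [3, 2, 0, 1], [], 1, [[1], [1], [1], [5]], [0]⟩,
     ⟨-1, [1, 4, 0, 2], [], 1, [[1], [1], [1], [4]], [0]⟩,
     ⟨2, [1, 0, 3, 2], [], 1, [[1], [1], [1], [5]], [0]⟩,
     ⟨-1, [2, 0, 3, 1], [], 1, [[1], [1], [1], [5]], [0]⟩,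
     ⟨-1, [3, 0, 4, 1], [], 1, [[1], [1], [1], [3]], [0]⟩,
     ⟨1, [2, 4], [], 1, [[1], [1], [1, 2, 1], [4]], [0]⟩,
     ⟨2, [4, 0], [], 1, [[1], [2, 1], [3, 1], [4]], [0]⟩,
     ⟨-2, [], [0, 0], 1, [[1, 4], [2, 1], [3], [5]], [0]⟩,
     ⟨-2, [3], [0], 1, [[1], [2, 1], [3, 1], [5]], [0]⟩,
     ⟨-1, [4], [0], 1, [[1], [2], [3, 1], [4, 1]], [0]⟩,
     ⟨2, [], [0, 0], 1, [[1], [2], [4, 1, 3], [5]], [0]⟩,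
     ⟨-1, [4, 0], [], 1, [[1], [1, 4, 1], [2], [3]], [0]⟩,
     ⟨-1, [], [4, 0], 1, [[1], [1], [2, 4, 1], [3]], [0]⟩,
     ⟨2, [], [3, 0], 1, [[1], [1, 1, 3], [2], [5]], [0]⟩,
     ⟨1, [], [1, 0], 1, [[1], [1, 4], [3, 1], [5]], [0]⟩,
     ⟨-2, [1], [0], 1, [[1], [3], [4, 1], [5, 1]], [0]⟩,
     ⟨-2, [], [3, 0], 1, [[1], [1, 2], [1, 3], [5]], [0]⟩,
     ⟨-1, [], [2, 0], 1, [[1], [1, 4, 1], [2], [5]], [0]⟩,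
     ⟨-2, [], [2, 0], 1, [[1], [2, 1], [4, 1], [5]], [0]⟩,
     ⟨-2, [3, 0], [], 1, [[1], [1, 1, 5], [2], [3]], [0]⟩,
     ⟨2, [], [1, 0], 1, [[1], [1, 5], [3, 1], [4]], [0]⟩,
     ⟨1, [2], [], 1, [[1], [1], [1, 2], [4, 1, 5]], [0]⟩,
     ⟨2, [4], [], 1, [[1], [1, 1, 2], [3, 1], [4]], [0]⟩],
    by decide +kernel⟩

end Pool.Agent.P.MP_9682d1_al.E22
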