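import Pool.Agent.P.MP_9682d1_al.E22.CertA
import Pool.Agent.P.MP_9682d1_al.E22.CertB
import Pool.Agent.P.MP_9682d1_al.E22.CertC
import Pool.Agent.P.MP_9682d1_al.E22.CertD

set_option autoImplicit false

namespace Pool.Agent.P.MP_9682d1_al.E22

def pats2 : List (List Bool) :=
  [[false, false, false, true, false],
   [false, false, false, true, true],
   [true, false, false, true, true],
   [true, false, false, true, false],
   [false, true, false, true, true],
   [true, true, false, true, true],
   [false, true, false, true, false, true],
   [true, true, true, true]]

theorem oks2 : ∀ s ∈ pats2, Ok 2 1 s := by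
  simp only [pats2, List.forall_mem_cons]
  exact ⟨ok2_abcXd, ok2_abcXX, ok2_XabXX, ok2_XabXc, ok2_aXbXX, ok2_XXaXX, ok2_aXbXcX, ok2_XXXX,
    fun _ h => nomatch h⟩

def pats3 : List (List Bool) :=
  [[false, false, true, false],
   [false, false, true, true],
   [false, true, false, true],
   [false, true, true, true],
   [false, true, true, false, true],
   [true, true, true, true]]

theorem oks3 : ∀ s ∈ pats3, Ok 3 1 s := by
  simp only [pats3, List.forall_mem_cons]
  exact ⟨ok3_abXc, ok3_abXX, ok3_aXbX, ok3_aXXX, ok3_aXXbX, ok3_XXXX,
    fun _ h => nomatch h⟩

def pats5 : List (List Bool) :=
  [[false, false, false, true],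
   [false, false, true, true],
   [false, false, true, false, false, true],
   [false, true, true, true],
   [false, true, false, false, true, false, true],
   [false, false, true, false, true, true],
   [false, true, false, true, false, true, true],
   [false, true, false, true, true, false, true],
   [true, false, true, true, false, true, true],
   [false, true, false, true, false, true, false, true],
   [true, true, true, true]]

theorem oks5 : ∀ s ∈ pats5, Ok 5 1 s := by
  simp only [pats5, List.forall_mem_cons]
  exact ⟨ok5_abcX, ok5_abXX, ok5_abXcdX, ok5_aXXX, ok5_aXbcXdX, ok5_abXcXX, ok5_aXbXcXX, ok5_aXbXXcX, ok5_XaXXbXX, ok5_aXbXcXdX, ok5_XXXX,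
    fun _ h => nomatch h⟩

def pats0 : List (List Bool) :=
  [[false, false, false, true],
   [false, true, false, true],
   [false, true, false, false, true],
   [false, false, true, true],
   [true, false, true, true],
   [true, true, true, true]]

theorem oks0 : ∀ s ∈ pats0, Ok 0 27000 s := by
  simp only [pats0, List.forall_mem_cons]
  exact ⟨ok0_abcX, ok0_aXbX, ok0_aXbcX, ok0_abXX, ok0_XaXX, ok0_XXXX,
    fun _ h => nomatch h⟩

/-- closure test for the automaton that finds a pattern -/
def covers (P : List (List Bool)) (A : List (List Bool × ℕ)) : Bool :=
  A.all fun t => 1 ≤ t.2 && [true, false].all fun b =>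
    P.any (fun s => s <:+: t.1 ++ [b]) ||
      A.any fun t' => t'.1 <:+ t.1 ++ [b] && t'.2 + hc [b] ≤ t.2

def aut2 : List (List Bool × ℕ) :=
  [([], 8),
   ([true], 7),
   ([false], 7),
   ([true, true], 5),
   ([true, false], 7),
   ([false, true], 6),
   ([false, false], 7),
   ([true, true, true], 4),
   ([true, true, false], 4),
   ([true, false, false], 2),
   ([false, true, false], 3),
   ([false, false, false], 2),
   ([true, true, false, true], 3),
   ([true, false, false, true], 1),
   ([false, true, false, true], 2),
   ([false, false, false, true], 1),
   ([false, true, false, true, false], 2)]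

theorem cov2 : covers pats2 aut2 = true := by decide +kernel

def aut3 : List (List Bool × ℕ) :=
  [([], 7),
   ([true], 6),
   ([false], 4),
   ([true, true], 5),
   ([false, true], 3),
   ([false, false], 2),
   ([true, true, true], 4),
   ([false, true, true], 2),
   ([false, true, false], 2),
   ([false, false, true], 1),
   ([false, true, true, false], 2)]

theorem cov3 : covers pats3 aut3 = true := by decide +kernel

def aut5 : List (List Bool × ℕ) :=
  [([], 13),
   ([true], 12),
   ([false], 12),
   ([true, true], 11),
   ([true, false], 10),
   ([false, true], 11),
   ([false, false], 5),
   ([true, true, true], 10),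
   ([true, false, true], 9),
   ([false, true, true], 10),
   ([false, true, false], 7),
   ([false, false, true], 4),
   ([false, false, false], 1),
   ([true, false, true, true], 8),
   ([false, true, false, true], 6),
   ([false, true, false, false], 2),
   ([false, false, true, false], 4),
   ([true, false, true, true, false], 8),
   ([false, true, false, true, true], 5),
   ([false, true, false, true, false], 3),
   ([false, true, false, false, true], 1),
   ([false, false, true, false, true], 3),
   ([false, false, true, false, false], 1),
   ([true, false, true, true, false, true], 7),
   ([false, true, false, true, true, false], 5),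
   ([false, true, false, true, false, true], 2),
   ([false, true, false, false, true, false], 1),
   ([false, true, false, true, false, true, false], 2)]

theorem cov5 : covers pats5 aut5 = true := by decide +kernel

def aut0 : List (List Bool × ℕ) :=
  [([], 5),
   ([true], 4),
   ([false], 5),
   ([true, true], 3),
   ([true, false], 2),
   ([false, true], 4),
   ([false, false], 2),
   ([true, true, true], 2),
   ([true, false, true], 1),
   ([false, true, false], 1),
   ([false, false, true], 1),
   ([false, false, false], 1),
   ([false, true, false, false], 1)]

theorem cov0 : covers pats0 aut0 = true := by decide +kernel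

end Pool.Agent.P.MP_9682d1_al.E22
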