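import Pool.Agent.P.MP_9682d1_al.E22.Chk

set_option autoImplicit false
set_option maxRecDepth 200000

namespace Pool.Agent.P.MP_9682d1_al.E22

theorem ok2_abcXd : Ok 2 1 [false, false, false, true, false] :=
  ⟨
    [⟨1, [], [], 1, [[5], [1], [4], [3], [0]], [2]⟩],
    by decide +kernel⟩

theorem ok2_abcXX : Ok 2 1 [false, false, false, true, true] :=
  ⟨
    [⟨1, [], [], 1, [[0], [1], [1, 3], [4]], [2]⟩],
    by decide +kernel⟩

theorem ok2_XabXX : Ok 2 1 [true, false, false, true, true] :=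
  ⟨
    [⟨1, [], [], 1, [[0], [1], [1, 2], [3]], [1]⟩],
    by decide +kernel⟩

theorem ok2_XabXc : Ok 2 1 [true, false, false, true, false] :=
  ⟨
    [⟨1, [], [], 1, [[3], [2], [1], [4], [0]], [1]⟩],
    by decide +kernel⟩

theorem ok2_aXbXX : Ok 2 1 [false, true, false, true, true] :=
  ⟨
    [⟨1, [], [], 1, [[3], [1], [1], [1], [0]], [2]⟩],
    by decide +kernel⟩

theorem ok2_XXaXX : Ok 2 1 [true, true, false, true, true] :=
  ⟨
    [⟨1, [], [], 1, [[1], [1], [2], [1], [0]], [1]⟩],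
    by decide +kernel⟩

theorem ok2_XXXX : Ok 2 1 [true, true, true, true] :=
  ⟨
    [⟨1, [], [], 0, [], []⟩],
    by decide +kernel⟩

end Pool.Agent.P.MP_9682d1_al.E22
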