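import Pool.Agent.P.MP_9682d1_al.E22.Cube

set_option autoImplicit false

namespace Pool.Agent.P.MP_9682d1_al.E22

universe u

abbrev Pl := List (ℤ × List ℕ)
abbrev El := ℕ × Pl

def pmul (P Q : Pl) : Pl := P.flatMap fun s => Q.map fun t => (s.1 * t.1, s.2 ++ t.2)
def pneg (P : Pl) : Pl := P.map fun t => (-t.1, t.2)

def br (e f : El) : El :=
  (e.1 + f.1, if e.1 = 0 then (if f.1 = 0 then pmul e.2 f.2 ++ pneg (pmul f.2 e.2) else pmul e.2 f.2)
    else pneg (pmul f.2 e.2))

def addE (e f : El) : El := if e.1 = f.1 then (e.1, e.2 ++ f.2) else (2, [])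

def lt : ℕ → El
  | 0 => (1, [(1, [])])
  | i + 1 => (0, [(1, [i])])

def mono : List ℕ → El
  | [] => (2, [])
  | [i] => lt i
  | i :: j :: s => br (lt i) (mono (j :: s))

structure Ins where
  c : ℤ
  l : List ℕ
  r : List ℕ
  t : ℕ
  z : List (List ℕ)
  u : List ℕ

def Ins.el (I : Ins) : El :=
  if I.z = [] then (1, [(1, [0, 0, 0, 0])]) else
    (Kl I.z.length).foldr
      (fun w e => addE (w.foldr (fun i v => br (mono (I.z.getD i [])) v) (mono I.u)) e) (I.t, [])

def Ins.tm (I : Ins) : Pl := I.el.2.map fun t => (I.c * t.1, I.l ++ t.2 ++ I.r)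

def hc : List Bool → ℕ
  | [] => 0
  | true :: s => hc s + 1
  | false :: s => hc s

def mu : List Bool → ℕ
  | [] => 0
  | true :: s => mu s
  | false :: s => 16 ^ hc s + mu s

def shp (u : List ℕ) : List Bool := u.map (· == 0)

def ins (y : ℕ) : List ℕ → List ℕ
  | [] => [y]
  | j :: w => if j ≠ 0 ∧ j < y then j :: ins y w else y :: j :: w

def nrm : List ℕ → List ℕ
  | [] => []
  | i :: w => ins i (nrm w)

def enc : List ℕ → List Bool
  | [] => []
  | i :: w => List.replicate i true ++ false :: enc w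

def dec : ℕ → List Bool → List ℕ
  | _, [] => []
  | k, true :: p => dec (k + 1) p
  | k, false :: p => k :: dec 0 p

inductive Tr
  | nil
  | node (c : ℤ) (l r : Tr)

def Tr.ins : List Bool → Tr → ℤ → Tr
  | [], .nil, c => .node c .nil .nil
  | [], .node d l r, c => .node (d + c) l r
  | false :: p, .nil, c => .node 0 (Tr.ins p .nil c) .nil
  | false :: p, .node d l r, c => .node d (Tr.ins p l c) r
  | true :: p, .nil, c => .node 0 .nil (Tr.ins p .nil c)
  | true :: p, .node d l r, c => .node d l (Tr.ins p r c)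

def Tr.ok (p : ℕ) : Tr → Bool
  | .nil => true
  | .node d l r => d % (p : ℤ) == 0 && l.ok p && r.ok p

def coll (m : ℕ) (T : Pl) : Tr :=
  T.foldr (fun t s => if mu (shp t.2) < m then s else Tr.ins (enc (nrm t.2)) s t.1) .nil

def lab : List Bool → ℕ → List ℕ
  | [], _ => []
  | true :: s, k => 0 :: lab s k
  | false :: s, k => (k + 1) :: lab s (k + 1)

def chk (p : ℕ) (c : ℤ) (s : List Bool) (L : List Ins) : Bool :=
  L.all (fun I => I.el.1 ≤ 1) &&
    ((L.flatMap Ins.tm).all fun t => hc (shp t.2) == hc s && t.2.length == s.length) &&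
    (coll (mu s) ((-c, lab s 0) :: L.flatMap Ins.tm)).ok p

def Ok (p : ℕ) (c : ℤ) (s : List Bool) : Prop := ∃ T, chk p c s T = true

section
variable {M : Type*} [AddCommGroup M]

def sm (g : List ℕ → M) (T : Pl) : M := (T.map fun t => t.1 • g t.2).sum

@[simp] theorem sm_nil (g : List ℕ → M) : sm g [] = 0 := rfl
@[simp] theorem sm_cons (g : List ℕ → M) (t : ℤ × List ℕ) (T : Pl) :
    sm g (t :: T) = t.1 • g t.2 + sm g T := by simp [sm]
@[simp] theorem sm_append (g : List ℕ → M) (S T : Pl) : sm g (S ++ T) = sm g S + sm g T := by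
  simp [sm]

def Tr.S : Tr → (List Bool → M) → M
  | .nil, _ => 0
  | .node d l r, f => d • f [] + l.S (fun p => f (false :: p)) + r.S (fun p => f (true :: p))

theorem Tr.S_ins (p : List Bool) (t : Tr) (c : ℤ) (f : List Bool → M) :
    (Tr.ins p t c).S f = c • f p + t.S f := by
  induction p generalizing t f with
  | nil => cases t <;> simp [Tr.ins, Tr.S, add_smul]; abel
  | cons b p ih => cases b <;> cases t <;> simp [Tr.ins, Tr.S, ih] <;> abel

theorem Tr.S_ok {p : ℕ} (t : Tr) (f : List Bool → M) (hf : ∀ q, (p : ℤ) • f q = 0)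
    (h : t.ok p = true) : t.S f = 0 := by
  induction t generalizing f with
  | nil => rfl
  | node d l r hl hr =>
    simp only [Tr.ok, Bool.and_eq_true, beq_iff_eq] at h
    obtain ⟨e, rfl⟩ := Int.dvd_of_emod_eq_zero h.1.1
    rw [Tr.S, hl _ (fun _ => hf _) h.1.2, hr _ (fun _ => hf _) h.2, mul_comm, mul_smul, hf]
    simp

theorem dec_enc (w : List ℕ) : dec 0 (enc w) = w := by
  have : ∀ (i k : ℕ) (p : List Bool),
      dec k (List.replicate i true ++ false :: p) = (k + i) :: dec 0 p := by
    intro i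
    induction i with
    | zero => intro k p; rfl
    | succ i ih => intro k p; simp only [List.replicate_succ, List.cons_append, dec, ih]; congr 1; omega
  induction w with
  | nil => rfl
  | cons i w ih => simp [enc, this, ih]

omit [AddCommGroup M] in
theorem g_nrm (g : List ℕ → M)
    (hw : ∀ l i j r, i ≠ 0 → j ≠ 0 → g (l ++ i :: j :: r) = g (l ++ j :: i :: r))
    (w l : List ℕ) : g (l ++ nrm w) = g (l ++ w) := by
  have h1 : ∀ (y : ℕ) (w l : List ℕ), g (l ++ ins y w) = g (l ++ y :: w) := by
    intro y w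
    induction w with
    | nil => intro l; rfl
    | cons j w ih =>
      intro l
      simp only [ins]
      split_ifs with h
      · have := ih (l ++ [j])
        simp only [List.append_assoc, List.singleton_append] at this
        rw [this, hw l j y w h.1 (by omega)]
      · rfl
  induction w generalizing l with
  | nil => rfl
  | cons i w ih =>
    have := ih (l ++ [i])
    simp only [List.append_assoc, List.singleton_append] at this
    rw [nrm, h1, this]

theorem coll_sound {p m : ℕ} (g : List ℕ → M) (hp : ∀ w, (p : ℤ) • g w = 0)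
    (hs : ∀ w, mu (shp w) < m → g w = 0)
    (hw : ∀ l i j r, i ≠ 0 → j ≠ 0 → g (l ++ i :: j :: r) = g (l ++ j :: i :: r))
    (T : Pl) (h : (coll m T).ok p = true) : sm g T = 0 := by
  have : ∀ T : Pl, (coll m T).S (fun q => g (dec 0 q)) = sm g T := by
    intro T
    induction T with
    | nil => rfl
    | cons t T ih =>
      simp only [coll, List.foldr_cons, sm_cons] at ih ⊢
      split_ifs with h
      · rw [hs _ h, ih]; simp
      · rw [Tr.S_ins, ih, dec_enc]
        exact congrArg (fun x => t.1 • x + sm g T) (g_nrm g hw t.2 [])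
  rw [← this, Tr.S_ok _ _ (fun _ => hp _) h]

end

/-- a Lie ring with the multilinear identities of a 4-Engel group on homogeneous elements -/
structure LD (V : Type u) [AddCommGroup V] where
  B : V →+ AddMonoid.End V
  anti : ∀ x y, B x y = -B y x
  jac : ∀ x y, B (B x y) = B x * B y - B y * B x
  Hm : V → Prop
  hB : ∀ {x y}, Hm x → Hm y → Hm (B x y)
  a : V
  ha : Hm a
  span : ∀ f : AddMonoid.End V, (∀ v, Hm v → f v = 0) → f = 0
  K : ∀ (m : ℕ) (z : ℕ → V), (∀ i, Hm (z i)) → ∀ u, Ws (fun i => B (z i)) u (Kl m) = 0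
  X4 : ∀ u, B a (B a (B a (B a u))) = 0

namespace LD

variable {V : Type u} [AddCommGroup V] (L : LD V) (ρ : ℕ → V)

def ev (w : List ℕ) : AddMonoid.End V := (w.map fun i => L.B (ρ i)).prod

theorem ev_append (u w : List ℕ) : L.ev ρ (u ++ w) = L.ev ρ u * L.ev ρ w := by simp [ev]

theorem sm_pneg (P : Pl) : sm (L.ev ρ) (pneg P) = -sm (L.ev ρ) P := by
  induction P with
  | nil => simp [pneg]
  | cons t P ih => simp only [pneg, List.map_cons, sm_cons, neg_smul] at ih ⊢; rw [ih]; abel

theorem sm_ctx (c : ℤ) (l r : List ℕ) (P : Pl) :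
    sm (L.ev ρ) (P.map fun t => (c * t.1, l ++ t.2 ++ r)) =
      c • (L.ev ρ l * sm (L.ev ρ) P * L.ev ρ r) := by
  induction P with
  | nil => simp
  | cons t P ih =>
    simp only [List.map_cons, sm_cons, ih, ev_append, mul_add, add_mul, mul_smul,
      mul_smul_comm, smul_mul_assoc]
    exact (zsmul_add _ _ _).symm

theorem sm_pmul (P Q : Pl) : sm (L.ev ρ) (pmul P Q) = sm (L.ev ρ) P * sm (L.ev ρ) Q := by
  induction P with
  | nil => simp [pmul]
  | cons t P ih =>
    have := L.sm_ctx ρ t.1 t.2 [] Q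
    simp only [List.append_nil] at this
    simp only [pmul, List.flatMap_cons, sm_append, sm_cons] at ih ⊢
    rw [ih, this, add_mul]
    simp [ev, mul_assoc]

def Rel (v x : V) (e : El) : Prop :=
  (e.1 = 0 → L.B x = sm (L.ev ρ) e.2) ∧ (e.1 = 1 → x = sm (L.ev ρ) e.2 v)

variable {L ρ}

theorem Rel.br {v x y : V} {e f : El} (h1 : L.Rel ρ v x e) (h2 : L.Rel ρ v y f) :
    L.Rel ρ v (L.B x y) (br e f) := by
  constructor
  · intro h
    have h' : e.1 + f.1 = 0 := h
    have he : e.1 = 0 := by omega
    have hf : f.1 = 0 := by omega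
    simp only [E22.br, he, hf, if_true, sm_append, sm_pneg, sm_pmul]
    rw [L.jac, h1.1 he, h2.1 hf, sub_eq_add_neg]
  · intro h
    have h' : e.1 + f.1 = 1 := h
    by_cases he : e.1 = 0
    · have hf : f.1 = 1 := by omega
      simp only [E22.br, he, hf, if_true, one_ne_zero, if_false, sm_pmul]
      rw [h1.1 he, h2.2 hf]; rfl
    · simp only [E22.br, he, if_false, sm_pneg, sm_pmul]
      rw [L.anti, h2.1 (by omega), h1.2 (by omega)]; rfl

theorem Rel.add {v x y : V} {e f : El} (h1 : L.Rel ρ v x e) (h2 : L.Rel ρ v y f) :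
    L.Rel ρ v (x + y) (addE e f) := by
  unfold addE
  split_ifs with h
  · refine ⟨fun he => ?_, fun he => ?_⟩
    · rw [map_add, h1.1 he, h2.1 (h ▸ he), sm_append]
    · rw [sm_append, h1.2 he, h2.2 (h ▸ he)]; rfl
  · exact ⟨by simp, by simp⟩

variable (L ρ)

def val (v : V) : ℕ → V
  | 0 => v
  | i + 1 => ρ i

def mv (v : V) : List ℕ → V
  | [] => v
  | [i] => val ρ v i
  | i :: j :: s => L.B (val ρ v i) (mv v (j :: s))

theorem rel_lt (v : V) (i : ℕ) : L.Rel ρ v (val ρ v i) (lt i) := by
  cases i <;> simp [Rel, lt, val, ev]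

theorem rel_mono (v : V) : ∀ s, L.Rel ρ v (L.mv ρ v s) (mono s)
  | [] => ⟨by simp [mono], by simp [mono]⟩
  | [i] => L.rel_lt ρ v i
  | i :: j :: s => (L.rel_lt ρ v i).br (rel_mono v (j :: s))

theorem hm_mv (hρ : ∀ i, L.Hm (ρ i)) {v : V} (hv : L.Hm v) : ∀ s, L.Hm (L.mv ρ v s)
  | [] => hv
  | [i] => by cases i; exacts [hv, hρ _]
  | i :: j :: s => L.hB (by cases i; exacts [hv, hρ _]) (hm_mv hρ hv (j :: s))

theorem el_zero (hρ : ∀ i, L.Hm (ρ i)) (h0 : ρ 0 = L.a) (I : Ins) (h : I.el.1 ≤ 1) :
    sm (L.ev ρ) I.el.2 = 0 := by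
  have key : ∀ v, L.Hm v → L.Rel ρ v 0 I.el := by
    intro v hv
    unfold Ins.el
    split_ifs with hz
    · exact ⟨by simp, fun _ => by simpa [ev, h0] using (L.X4 v).symm⟩
    · rw [← L.K I.z.length (fun i => L.mv ρ v (I.z.getD i [])) (fun i => L.hm_mv ρ hρ hv _)
        (L.mv ρ v I.u)]
      induction Kl I.z.length with
      | nil => exact ⟨by simp [Ws], by simp [Ws]⟩
      | cons w l ih =>
        simp only [Ws, List.map_cons, List.sum_cons, List.foldr_cons] at ih ⊢
        refine Rel.add ?_ ih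
        induction w with
        | nil => exact L.rel_mono ρ v _
        | cons i w ihw => exact (L.rel_mono ρ v _).br ihw
  rcases Nat.le_one_iff_eq_zero_or_eq_one.mp h with h | h
  · rw [← (key _ L.ha).1 h, map_zero]
  · exact L.span _ fun v hv => ((key v hv).2 h).symm

theorem shp_lab (s : List Bool) (k : ℕ) : shp (lab s k) = s := by
  induction s generalizing k with
  | nil => rfl
  | cons b s ih => cases b <;> simp only [shp, lab, List.map_cons] at ih ⊢ <;> simp [ih]

theorem hc_append (s t : List Bool) : hc (s ++ t) = hc s + hc t := by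
  induction s with
  | nil => simp [hc]
  | cons b s ih => cases b <;> simp only [List.cons_append, hc, ih]; omega

theorem mu_append (s t : List Bool) : mu (s ++ t) = 16 ^ hc t * mu s + mu t := by
  induction s with
  | nil => simp [mu]
  | cons b s ih => cases b <;> simp only [List.cons_append, mu, ih, hc_append]; ring

theorem chk_sound {M : Type*} [AddCommGroup M] (hρ : ∀ i, L.Hm (ρ i)) (h0 : ρ 0 = L.a)
    (Φ : AddMonoid.End V →+ M) {p : ℕ} {c : ℤ} {s : List Bool} {T : List Ins}
    (h : chk p c s T = true)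
    (hp : ∀ w, hc (shp w) = hc s → w.length = s.length → (p : ℤ) • Φ (L.ev ρ w) = 0)
    (hs : ∀ w, hc (shp w) = hc s → w.length = s.length → mu (shp w) < mu s → Φ (L.ev ρ w) = 0)
    (hw : ∀ l i j r, i ≠ 0 → j ≠ 0 → hc (shp (l ++ i :: j :: r)) = hc s →
      (l ++ i :: j :: r).length = s.length →
      Φ (L.ev ρ (l ++ i :: j :: r)) = Φ (L.ev ρ (l ++ j :: i :: r))) :
    c • Φ (L.ev ρ (lab s 0)) = 0 := by
  simp only [chk, Bool.and_eq_true, List.all_eq_true, decide_eq_true_eq, beq_iff_eq] at h
  obtain ⟨⟨h1, h2⟩, h3⟩ := h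
  let g : List ℕ → M := fun w =>
    if hc (shp w) = hc s ∧ w.length = s.length then Φ (L.ev ρ w) else 0
  have key := coll_sound g (by
    intro w; simp only [g]; split_ifs with h
    · exact hp w h.1 h.2
    · simp) (by
    intro w hm; simp only [g]; split_ifs with h
    · exact hs w h.1 h.2 hm
    · rfl) (by
    intro l i j r hi hj
    have e : hc (shp (l ++ j :: i :: r)) = hc (shp (l ++ i :: j :: r)) := by
      have hi' : (i == 0) = false := by simpa using hi
      have hj' : (j == 0) = false := by simpa using hj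
      simp only [shp, List.map_append, List.map_cons, hi', hj']
    have e' : (l ++ j :: i :: r).length = (l ++ i :: j :: r).length := by simp
    simp only [g, e, e']
    split_ifs with h
    · exact hw l i j r hi hj h.1 h.2
    · rfl) _ h3
  have e1 : ∀ P : Pl, (∀ t ∈ P, hc (shp t.2) = hc s ∧ t.2.length = s.length) →
      sm g P = Φ (sm (L.ev ρ) P) := by
    intro P hP
    induction P with
    | nil => simp
    | cons t P ih =>
      rw [sm_cons, sm_cons, map_add, map_zsmul, ih fun t ht => hP t (List.mem_cons_of_mem _ ht)]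
      simp only [g, hP t List.mem_cons_self, and_self, if_true]
  have e2 : sm (L.ev ρ) (T.flatMap Ins.tm) = 0 := by
    clear h2 h3 key
    induction T with
    | nil => rfl
    | cons I T ih =>
      rw [List.flatMap_cons, sm_append, ih fun I hI => h1 I (List.mem_cons_of_mem _ hI), Ins.tm,
        sm_ctx, L.el_zero ρ hρ h0 I (h1 I List.mem_cons_self)]
      simp
  have e3 : (lab s 0).length = s.length := by
    conv_rhs => rw [← shp_lab s 0]
    simp [shp]
  rw [sm_cons, e1 _ h2, e2, map_zero, add_zero] at key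
  simpa [g, shp_lab, e3] using key

end LD

end Pool.Agent.P.MP_9682d1_al.E22
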