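import Pool.Agent.P.MP_9682d1_al.C.Defs

set_option autoImplicit false

namespace Pool.Agent.P.MP_9682d1_al.E22

open Pool.Agent.P.MP_9682d1_al.C

universe u

/-- a filtered group together with a linear model of its graded pieces -/
structure Rep (G : Type u) [Group G] (V : Type u) [AddCommGroup V] where
  F : ℕ → Subgroup G
  c : ℕ → G → V
  β : ℕ → G → V →+ V
  anti : ∀ n, F (n + 1) ≤ F n
  comm : ∀ {i j : ℕ} {x y : G}, x ∈ F i → y ∈ F j → cm x y ∈ F (i + j)
  c_mul : ∀ {n : ℕ} {x y : G}, 1 ≤ n → x ∈ F n → y ∈ F n → c n (x * y) = c n x + c n y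
  c_zero : ∀ {n : ℕ} {x : G}, x ∈ F (n + 1) → c n x = 0
  c_cm : ∀ {n s : ℕ} {y z : G}, 1 ≤ n → y ∈ F n → z ∈ F s → c (n + s) (cm y z) = β s z (c n y)
  β_one : ∀ s, β s 1 = 0

namespace Rep

variable {G V : Type u} [Group G] [AddCommGroup V] (ρ : Rep G V)

theorem le {m n : ℕ} (h : m ≤ n) {x : G} (hx : x ∈ ρ.F n) : x ∈ ρ.F m :=
  antitone_nat_of_succ_le ρ.anti h hx

theorem comm_le {i j n : ℕ} {x y : G} (hx : x ∈ ρ.F i) (hy : y ∈ ρ.F j) (h : n ≤ i + j) :
    cm x y ∈ ρ.F n := ρ.le h (ρ.comm hx hy)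

theorem c_lt {n m : ℕ} {x : G} (hx : x ∈ ρ.F m) (h : n < m) : ρ.c n x = 0 :=
  ρ.c_zero (ρ.le h hx)

theorem c_one (n : ℕ) : ρ.c n 1 = 0 := ρ.c_zero (one_mem _)

theorem cube_id (y e g d : G) : (cm y g)⁻¹ * cm (y * e) (g * d) =
    cm (y * e) d * cm (cm (y * e) d) (cm y g) * (cm (cm y g) e * cm e g * cm (cm (y * e) g) d) := by
  simp only [cm]; group

/-- the doubled filtration -/
def dF (s n : ℕ) : Subgroup (G × G) where
  carrier := {p | p.1 ∈ ρ.F n ∧ p.1⁻¹ * p.2 ∈ ρ.F (n + s)}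
  one_mem' := ⟨one_mem _, by simp⟩
  mul_mem' := by
    rintro ⟨g, h⟩ ⟨g', h'⟩ ⟨h1, h2⟩ ⟨h3, h4⟩
    refine ⟨mul_mem h1 h3, ?_⟩
    have : (g * g')⁻¹ * (h * h') = g⁻¹ * h * cm (g⁻¹ * h) g' * (g'⁻¹ * h') := by
      simp only [cm]; group
    show (g * g')⁻¹ * (h * h') ∈ _
    rw [this]
    exact mul_mem (mul_mem h2 (ρ.comm_le h2 h3 (by omega))) h4
  inv_mem' := by
    rintro ⟨g, h⟩ ⟨h1, h2⟩
    refine ⟨inv_mem h1, ?_⟩
    have : g⁻¹⁻¹ * h⁻¹ = (g⁻¹ * h)⁻¹ * cm (g⁻¹ * h)⁻¹ g⁻¹ := by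
      simp only [cm]; group
    show g⁻¹⁻¹ * h⁻¹ ∈ _
    rw [this]
    exact mul_mem (inv_mem h2) (ρ.comm_le (inv_mem h2) (inv_mem h1) (by omega))

theorem mem_dF {s n : ℕ} {g e : G} : (g, g * e) ∈ ρ.dF s n ↔ g ∈ ρ.F n ∧ e ∈ ρ.F (n + s) := by
  show g ∈ ρ.F n ∧ g⁻¹ * (g * e) ∈ ρ.F (n + s) ↔ _
  rw [inv_mul_cancel_left]

theorem ex_pair (p : G × G) : ∃ g e, p = (g, g * e) := ⟨p.1, p.1⁻¹ * p.2, by simp⟩

theorem cm_pair (y e g d : G) : cm (y, y * e) (g, g * d) =
    (cm y g, cm y g * ((cm y g)⁻¹ * cm (y * e) (g * d))) := by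
  rw [mul_inv_cancel_left]; rfl

/-- the doubled model -/
def dbl (s : ℕ) (hs : 1 ≤ s) : Rep (G × G) (V × V) where
  F := ρ.dF s
  c n p := (ρ.c n p.1, ρ.c (n + s) (p.1⁻¹ * p.2))
  β k p := ((ρ.β k p.1).comp (AddMonoidHom.fst V V)).prod
    ((ρ.β k p.1).comp (AddMonoidHom.snd V V) + ((ρ.β (k + s) (p.1⁻¹ * p.2)).comp
      (AddMonoidHom.id V + if k = 0 then ρ.β 0 p.1 else 0)).comp (AddMonoidHom.fst V V))
  anti n := fun p hp => ⟨ρ.anti n hp.1, ρ.le (by omega) hp.2⟩
  comm := by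
    intro i j p q hp hq
    obtain ⟨y, e, rfl⟩ := ex_pair p
    obtain ⟨g, d, rfl⟩ := ex_pair q
    rw [mem_dF] at hp hq
    obtain ⟨hy, he⟩ := hp
    obtain ⟨hg, hd⟩ := hq
    have hye : y * e ∈ ρ.F i := mul_mem hy (ρ.le (by omega) he)
    rw [cm_pair, mem_dF, cube_id]
    have h1 := ρ.comm hye hd
    have h2 := ρ.comm hy hg
    exact ⟨h2, mul_mem (mul_mem (ρ.le (by omega) h1) (ρ.comm_le h1 h2 (by omega)))
      (mul_mem (mul_mem (ρ.comm_le h2 he (by omega)) (ρ.comm_le he hg (by omega)))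
        (ρ.comm_le (ρ.comm hye hg) hd (by omega)))⟩
  c_mul := by
    rintro n ⟨g, h⟩ ⟨g', h'⟩ hn ⟨h1, h2⟩ ⟨h3, h4⟩
    have e : (g * g')⁻¹ * (h * h') = g⁻¹ * h * cm (g⁻¹ * h) g' * (g'⁻¹ * h') := by
      simp only [cm]; group
    have h5 := ρ.comm h2 h3
    show (ρ.c n (g * g'), ρ.c (n + s) ((g * g')⁻¹ * (h * h'))) = _
    rw [e, ρ.c_mul hn h1 h3, ρ.c_mul (by omega) (mul_mem h2 (ρ.le (by omega) h5)) h4,
      ρ.c_mul (by omega) h2 (ρ.le (by omega) h5), ρ.c_lt h5 (by omega), add_zero]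
    rfl
  c_zero := by
    rintro n ⟨g, h⟩ ⟨h1, h2⟩
    show (ρ.c n g, ρ.c (n + s) (g⁻¹ * h)) = 0
    rw [ρ.c_zero h1, ρ.c_lt h2 (by omega)]
    rfl
  c_cm := by
    intro n k p q hn hp hq
    obtain ⟨y, e, rfl⟩ := ex_pair p
    obtain ⟨g, d, rfl⟩ := ex_pair q
    rw [mem_dF] at hp hq
    obtain ⟨hy, he⟩ := hp
    obtain ⟨hg, hd⟩ := hq
    have hye : y * e ∈ ρ.F n := mul_mem hy (ρ.le (by omega) he)
    have cye : ρ.c n (y * e) = ρ.c n y := by
      rw [ρ.c_mul hn hy (ρ.le (by omega) he), ρ.c_lt he (by omega), add_zero]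
    have h1 := ρ.comm hye hd
    have h2 := ρ.comm hy hg
    have h3 := ρ.comm h1 h2
    have h4 := ρ.comm h2 he
    have h5 := ρ.comm he hg
    have h6 := ρ.comm (ρ.comm hye hg) hd
    have c1 : ρ.c (n + k + s) (cm (y * e) d) = ρ.β (k + s) d (ρ.c n y) := by
      rw [add_assoc, ρ.c_cm hn hye hd, cye]
    have c5 : ρ.c (n + k + s) (cm e g) = ρ.β k g (ρ.c (n + s) e) := by
      rw [add_right_comm, ρ.c_cm (by omega) he hg]
    have c6 : ρ.c (n + k + s) (cm (cm (y * e) g) d) =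
        ρ.β (k + s) d ((if k = 0 then ρ.β 0 g else 0) (ρ.c n y)) := by
      split_ifs with hk
      · subst hk
        have := ρ.c_cm (n := n + 0) (s := 0 + s) hn (ρ.comm hye hg) hd
        rw [ρ.c_cm hn hye hg, cye] at this
        simpa using this
      · rw [ρ.c_lt h6 (by omega)]; simp
    rw [cm_pair]
    simp only [inv_mul_cancel_left]
    have m1 : cm (y * e) d ∈ ρ.F (n + k + s) := ρ.le (by omega) h1
    have m3 := ρ.le (show n + k + s ≤ _ by omega) h3
    have m4 := ρ.le (show n + k + s ≤ _ by omega) h4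
    have m5 := ρ.le (show n + k + s ≤ _ by omega) h5
    have m6 := ρ.le (show n + k + s ≤ _ by omega) h6
    have hN : 1 ≤ n + k + s := by omega
    rw [cube_id, ρ.c_mul hN (mul_mem m1 m3) (mul_mem (mul_mem m4 m5) m6), ρ.c_mul hN m1 m3,
      ρ.c_mul hN (mul_mem m4 m5) m6, ρ.c_mul hN m4 m5, c1, c5, c6, ρ.c_lt h3 (by omega),
      ρ.c_lt h4 (by omega), ρ.c_cm hn hy hg]
    ext
    · rfl
    · simp only [AddMonoidHom.prod_apply, AddMonoidHom.add_apply, AddMonoidHom.comp_apply,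
        AddMonoidHom.coe_fst, AddMonoidHom.coe_snd, AddMonoidHom.id_apply, map_add]
      abel
  β_one := by
    intro k
    ext <;> simp [ρ.β_one]

end Rep

/-- action of the product of the `1 + t_i Z_i` on coefficient families -/
def Rr {α : Type*} (ad : α → α → α) : List (α → α) → (List Bool → α) → List Bool → α
  | [], F, S => F S
  | _ :: _, F, [] => F []
  | _ :: zs, F, false :: S => Rr ad zs (fun T => F (false :: T)) S
  | Z :: zs, F, true :: S =>
      ad (Rr ad zs (fun T => F (true :: T)) S) (Rr ad zs (fun T => Z (F (false :: T))) S)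

/-- the same minus the identity -/
def R1 {α : Type*} (ad : α → α → α) (o : α) : List (α → α) → (List Bool → α) → List Bool → α
  | [], _, _ => o
  | _ :: _, _, [] => o
  | _ :: zs, F, false :: S => R1 ad o zs (fun T => F (false :: T)) S
  | Z :: zs, F, true :: S =>
      ad (R1 ad o zs (fun T => F (true :: T)) S) (Rr ad zs (fun T => Z (F (false :: T))) S)

def dl {α : Type*} (o u : α) (S : List Bool) : α := if S.all (fun b => !b) then u else o

section
variable {V : Type u} [AddCommGroup V]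

theorem R1_eq (zs : List (V → V)) (F : List Bool → V) (S : List Bool) :
    R1 (· + ·) 0 zs F S = Rr (· + ·) zs F S - F S := by
  induction zs generalizing F S with
  | nil => simp [R1, Rr]
  | cons Z zs ih =>
    rcases S with _ | ⟨_ | _, S⟩
    · simp [R1, Rr]
    · simp only [R1, Rr, ih]
    · simp only [R1, Rr, ih]; abel

theorem Rr_add (zs : List (V →+ V)) (F F' : List Bool → V) (S : List Bool) :
    Rr (· + ·) (zs.map (↑)) (fun T => F T + F' T) S =
      Rr (· + ·) (zs.map (↑)) F S + Rr (· + ·) (zs.map (↑)) F' S := by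
  induction zs generalizing F F' S with
  | nil => simp [Rr]
  | cons Z zs ih =>
    rcases S with _ | ⟨_ | _, S⟩
    · simp [Rr]
    · simp only [List.map_cons, Rr, ih]
    · simp only [List.map_cons, Rr, map_add, ih]; abel

theorem Rr_diag (zs : List (V →+ V)) (F : List Bool → V × V) (S : List Bool) :
    Rr (· + ·) ((zs.map fun Z => Z.prodMap Z).map (↑)) F S =
      (Rr (· + ·) (zs.map (↑)) (fun T => (F T).1) S,
        Rr (· + ·) (zs.map (↑)) (fun T => (F T).2) S) := by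
  induction zs generalizing F S with
  | nil => simp [Rr]
  | cons Z zs ih =>
    rcases S with _ | ⟨_ | _, S⟩
    · simp [Rr]
    · simp only [List.map_cons, Rr, ih]
    · simp only [List.map_cons, Rr, ih]; rfl

def Tt (b : V →+ V) (zs : List (V →+ V)) (F : List Bool → V) (S : List Bool) : V :=
  Rr (· + ·) (zs.map (↑)) (fun T => F T + b (F T)) S - F S

def up (F : List Bool → V × V) : List Bool → V
  | [] => (F []).1
  | false :: T => (F T).1
  | true :: T => (F T).2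

theorem Tt_up (b Z : V →+ V) (b' : V × V →+ V × V)
    (hb : ∀ p, b' p = (b p.1, b p.2 + Z (p.1 + b p.1))) (zs : List (V →+ V))
    (F : List Bool → V × V) :
    Tt b (Z :: zs) (up F) = up (Tt b' (zs.map fun Z => Z.prodMap Z) F) := by
  funext S
  rcases S with _ | ⟨_ | _, S⟩
  · cases zs <;> simp [Tt, up, Rr, hb]
  · simp only [Tt, up, Rr, List.map_cons, Rr_diag, hb, Prod.fst_sub, Prod.fst_add]
  · simp only [Tt, up, Rr, List.map_cons, Rr_diag, hb, Prod.snd_sub, Prod.snd_add]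
    rw [← Rr_add]
    simp only [add_assoc]

theorem up_dl (u : V) : up (dl 0 (u, 0)) = dl 0 u := by
  funext S
  rcases S with _ | ⟨_ | _, S⟩
  · simp [up, dl]
  · simp only [up, dl, List.all_cons, Bool.not_false, Bool.true_and]; split_ifs <;> rfl
  · simp only [up, dl, List.all_cons, Bool.not_true, Bool.false_and]; split_ifs <;> simp_all

end

theorem top_zero (r m : ℕ) : ∀ (G V : Type u) [Group G] [AddCommGroup V] (ρ : Rep G V)
    (zs : List (ℕ × G)), zs.length = m → (∀ p ∈ zs, 1 ≤ p.1 ∧ p.2 ∈ ρ.F p.1) →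
    ∀ x ∈ ρ.F 0, ∀ (n : ℕ) (u : G), 1 ≤ n → u ∈ ρ.F n → RE r u →
      (Tt (ρ.β 0 x) (zs.map fun p => ρ.β p.1 p.2))^[r] (dl 0 (ρ.c n u))
        (List.replicate m true) = 0 := by
  induction m with
  | zero =>
    intro G V _ _ ρ zs hl _ x hx n u hn hu hE
    obtain rfl := List.length_eq_zero_iff.mp hl
    have key : ∀ j, (fun c => cm c x)^[j] u ∈ ρ.F n ∧
        (Tt (ρ.β 0 x) [])^[j] (dl 0 (ρ.c n u)) [] = ρ.c n ((fun c => cm c x)^[j] u) := by
      intro j
      induction j with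
      | zero => exact ⟨hu, by simp [dl]⟩
      | succ j ih =>
        rw [Function.iterate_succ_apply', Function.iterate_succ_apply']
        refine ⟨ρ.comm ih.1 hx, ?_⟩
        have := ρ.c_cm hn ih.1 hx
        rw [add_zero] at this
        rw [this, ← ih.2]
        simp [Tt, Rr]
    have h1 : (fun c => cm c x)^[r] u = 1 := hE x
    have := (key r).2
    rw [h1, ρ.c_one] at this
    exact this
  | succ m ih =>
    intro G V _ _ ρ zs hl hz x hx n u hn hu hE
    obtain ⟨⟨s, z⟩, zs, rfl⟩ := List.exists_cons_of_length_eq_add_one hl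
    obtain ⟨hs, hzs⟩ : 1 ≤ s ∧ z ∈ ρ.F s := hz _ List.mem_cons_self
    have h := ih (G × G) (V × V) (ρ.dbl s hs) (zs.map fun p => (p.1, (p.2, p.2)))
      (by simpa using hl) (by
        intro p hp
        obtain ⟨q, hq, rfl⟩ := List.mem_map.mp hp
        obtain ⟨h1, h2⟩ := hz q (List.mem_cons_of_mem _ hq)
        exact ⟨h1, h2, by simp⟩)
      (x, x * z) (ρ.mem_dF.mpr ⟨hx, by simpa using hzs⟩) n (u, u) hn ⟨hu, by simp⟩ (by
        intro g
        have : ∀ j, (fun c : G × G => c⁻¹ * (g⁻¹ * c * g))^[j] (u, u) =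
            ((fun c : G => c⁻¹ * (g.1⁻¹ * c * g.1))^[j] u,
              (fun c : G => c⁻¹ * (g.2⁻¹ * c * g.2))^[j] u) := by
          intro j
          induction j with
          | zero => rfl
          | succ j ih => simp only [Function.iterate_succ_apply', ih]; rfl
        rw [this, hE, hE]; rfl)
    have e1 : ((zs.map fun p => (p.1, (p.2, p.2))).map fun p => (ρ.dbl s hs).β p.1 p.2) =
        (zs.map fun p => ρ.β p.1 p.2).map fun Z => Z.prodMap Z := by
      simp only [List.map_map]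
      refine List.map_congr_left fun q _ => ?_
      ext <;> simp [Rep.dbl, ρ.β_one]
    have e2 : (ρ.dbl s hs).c n (u, u) = (ρ.c n u, 0) := by simp [Rep.dbl, ρ.c_one]
    rw [e1, e2] at h
    have e3 := Tt_up (ρ.β 0 x) (ρ.β s z) ((ρ.dbl s hs).β 0 (x, x * z))
      (by intro p; simp [Rep.dbl]) (zs.map fun p => ρ.β p.1 p.2)
    have e4 := Function.Semiconj.iterate_right (f := up) (fun F => (e3 F).symm) r (dl 0 (ρ.c n u, 0))
    rw [List.map_cons, ← up_dl, ← e4, List.replicate_succ]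
    show ((_ : List Bool → V × V) _).2 = 0
    rw [h]; rfl

/-- the index words of the multilinear Engel identity in `m` variables -/
def Kl (m : ℕ) : List (List ℕ) :=
  (R1 (· ++ ·) [] ((List.range m).map fun i => List.map (i :: ·)))^[4] (dl [] [[]])
    (List.replicate m true)

section
variable {V : Type u} [AddCommGroup V]

def Wd (Z : ℕ → V →+ V) (u : V) (w : List ℕ) : V := w.foldr (fun i v => Z i v) u

def Ws (Z : ℕ → V →+ V) (u : V) (l : List (List ℕ)) : V := (l.map (Wd Z u)).sum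

theorem Ws_cons (Z : ℕ → V →+ V) (u : V) (i : ℕ) (l : List (List ℕ)) :
    Ws Z u (l.map (i :: ·)) = Z i (Ws Z u l) := by
  simp [Ws, map_list_sum, Function.comp_def, Wd]

theorem Ws_Rr (Z : ℕ → V →+ V) (u : V) (is : List ℕ) (F : List Bool → List (List ℕ))
    (S : List Bool) : Ws Z u (Rr (· ++ ·) (is.map fun i => List.map (i :: ·)) F S) =
      Rr (· + ·) ((is.map Z).map (↑)) (fun T => Ws Z u (F T)) S := by
  induction is generalizing F S with
  | nil => simp [Rr]
  | cons i is ih =>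
    rcases S with _ | ⟨_ | _, S⟩
    · simp [Rr]
    · simp only [List.map_cons, Rr, ih]
    · simp only [List.map_cons, Rr]
      rw [Ws, List.map_append, List.sum_append, ← Ws, ← Ws, ih, ih]
      simp only [Ws_cons]

theorem Ws_R1 (Z : ℕ → V →+ V) (u : V) (is : List ℕ) (F : List Bool → List (List ℕ))
    (S : List Bool) : Ws Z u (R1 (· ++ ·) [] (is.map fun i => List.map (i :: ·)) F S) =
      R1 (· + ·) 0 ((is.map Z).map (↑)) (fun T => Ws Z u (F T)) S := by
  induction is generalizing F S with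
  | nil => simp [R1, Ws]
  | cons i is ih =>
    rcases S with _ | ⟨_ | _, S⟩
    · simp [R1, Ws]
    · simp only [List.map_cons, R1, ih]
    · simp only [List.map_cons, R1]
      rw [Ws, List.map_append, List.sum_append, ← Ws, ← Ws, ih, Ws_Rr]
      simp only [Ws_cons]

end

theorem Rep.engel {G V : Type u} [Group G] [AddCommGroup V] (ρ : Rep G V) (m : ℕ)
    (z : ℕ → ℕ × G) (hz : ∀ i, 1 ≤ (z i).1 ∧ (z i).2 ∈ ρ.F (z i).1) {n : ℕ} {u : G}
    (hn : 1 ≤ n) (hu : u ∈ ρ.F n) (hE : RE 4 u) :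
    Ws (fun i => ρ.β (z i).1 (z i).2) (ρ.c n u) (Kl m) = 0 := by
  have h := top_zero 4 m G V ρ ((List.range m).map z) (by simp) (by
    intro p hp
    obtain ⟨i, _, rfl⟩ := List.mem_map.mp hp
    exact hz i) 1 (one_mem _) n u hn hu hE
  set Z : ℕ → V →+ V := fun i => ρ.β (z i).1 (z i).2
  have e := Function.Semiconj.iterate_right
    (f := fun (F : List Bool → List (List ℕ)) T => Ws Z (ρ.c n u) (F T))
    (ga := R1 (· ++ ·) [] ((List.range m).map fun i => List.map (i :: ·)))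
    (gb := Tt 0 ((List.range m).map Z)) (fun F => by
      funext S
      simp only [Ws_R1, R1_eq, Tt, AddMonoidHom.zero_apply, add_zero]) 4 (dl [] [[]])
  have e0 : (fun T => Ws Z (ρ.c n u) (dl [] [[]] T)) = dl 0 (ρ.c n u) := by
    funext T
    simp only [dl]; split_ifs <;> simp [Ws, Wd]
  rw [ρ.β_one, List.map_map] at h
  have e' := congrFun e (List.replicate m true)
  simp only [e0] at e'
  exact e'.trans h

end Pool.Agent.P.MP_9682d1_al.E22
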