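import Pool.Agent.P.MP_9682d1_al.E22.Cube

set_option autoImplicit false

namespace Pool.Agent.P.MP_9682d1_al.E22

open Pool.Agent.P.MP_9682d1_al.C

universe u

/-- a filtration of a group that starts with the whole group -/
structure Fil (G : Type u) [Group G] where
  F : ℕ → Subgroup G
  anti : ∀ n, F (n + 1) ≤ F n
  comm : ∀ {i j : ℕ} {x y : G}, x ∈ F i → y ∈ F j → cm x y ∈ F (i + j)
  top : ∀ x, x ∈ F 1

theorem hw {G : Type u} [Group G] (x y z : G) :
    y⁻¹ * cm (cm x y⁻¹) z * y * (z⁻¹ * cm (cm y z⁻¹) x * z) * (x⁻¹ * cm (cm z x⁻¹) y * x) = 1 := by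
  simp only [cm]; group

theorem cj_eq {G : Type u} [Group G] (t g : G) : g⁻¹ * t * g = t * cm t g := by
  simp only [cm]; group

namespace Fil

variable {G : Type u} [Group G] (φ : Fil G)

theorem le {m n : ℕ} (h : m ≤ n) {x : G} (hx : x ∈ φ.F n) : x ∈ φ.F m :=
  antitone_nat_of_succ_le φ.anti h hx

instance normal (n : ℕ) : (φ.F n).Normal := ⟨fun t ht g => by
  have := cj_eq t g⁻¹
  rw [inv_inv] at this
  rw [this]
  exact mul_mem ht (φ.anti n (φ.comm ht (φ.top _)))⟩

def Rl : Set (FreeAbelianGroup (ℕ × G)) :=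
  {r | (∃ n x y, x ∈ φ.F n ∧ y ∈ φ.F n ∧
      r = FreeAbelianGroup.of (n, x * y) - FreeAbelianGroup.of (n, x) - FreeAbelianGroup.of (n, y)) ∨
    ∃ n x, (x ∈ φ.F (n + 1) ∨ x ∉ φ.F n) ∧ r = FreeAbelianGroup.of (n, x)}

/-- the associated graded group -/
def V : Type u := FreeAbelianGroup (ℕ × G) ⧸ AddSubgroup.closure φ.Rl

noncomputable instance : AddCommGroup φ.V := by unfold V; infer_instance

noncomputable def pr : FreeAbelianGroup (ℕ × G) →+ φ.V := QuotientAddGroup.mk' _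

noncomputable def c (n : ℕ) (x : G) : φ.V := φ.pr (FreeAbelianGroup.of (n, x))

theorem pr_rl {r : FreeAbelianGroup (ℕ × G)} (h : r ∈ φ.Rl) : φ.pr r = 0 :=
  (QuotientAddGroup.eq_zero_iff r).mpr (AddSubgroup.subset_closure h)

theorem c_mul {n : ℕ} {x y : G} (hx : x ∈ φ.F n) (hy : y ∈ φ.F n) :
    φ.c n (x * y) = φ.c n x + φ.c n y := by
  have := φ.pr_rl (Or.inl ⟨n, x, y, hx, hy, rfl⟩)
  rw [map_sub, map_sub, sub_sub, sub_eq_zero] at this
  exact this

theorem c_zero {n : ℕ} {x : G} (hx : x ∈ φ.F (n + 1)) : φ.c n x = 0 :=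
  φ.pr_rl (Or.inr ⟨n, x, Or.inl hx, rfl⟩)

theorem c_out {n : ℕ} {x : G} (hx : x ∉ φ.F n) : φ.c n x = 0 :=
  φ.pr_rl (Or.inr ⟨n, x, Or.inr hx, rfl⟩)

theorem c_one (n : ℕ) : φ.c n 1 = 0 := φ.c_zero (one_mem _)

theorem c_inv {n : ℕ} {x : G} (hx : x ∈ φ.F n) : φ.c n x⁻¹ = -φ.c n x := by
  have := φ.c_mul (inv_mem hx) hx
  rw [inv_mul_cancel, c_one] at this
  exact eq_neg_of_add_eq_zero_left this.symm

theorem c_cj {n : ℕ} {t : G} (ht : t ∈ φ.F n) (g : G) : φ.c n (g⁻¹ * t * g) = φ.c n t := by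
  have := φ.comm ht (φ.top g)
  rw [cj_eq, φ.c_mul ht (φ.anti n this), φ.c_zero this, add_zero]

theorem cj_mem {n : ℕ} {t : G} (ht : t ∈ φ.F n) (g : G) : g⁻¹ * t * g ∈ φ.F n := by
  simpa using (φ.normal n).conj_mem t ht g⁻¹

open Classical in
noncomputable def lift {M : Type*} [AddCommGroup M] (f : ℕ → G → M)
    (h1 : ∀ n x y, x ∈ φ.F n → y ∈ φ.F n → f n (x * y) = f n x + f n y)
    (h2 : ∀ n x, x ∈ φ.F (n + 1) → f n x = 0) : φ.V →+ M :=
  QuotientAddGroup.lift _
    (FreeAbelianGroup.lift fun p : ℕ × G => if p.2 ∈ φ.F p.1 then f p.1 p.2 else 0) (by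
    rw [AddSubgroup.closure_le]
    rintro r (⟨n, x, y, hx, hy, rfl⟩ | ⟨n, x, hx | hx, rfl⟩)
    · simp [hx, hy, mul_mem hx hy, h1 n x y hx hy]
    · simp [h2 n x hx]
    · simp [hx])

theorem lift_c {M : Type*} [AddCommGroup M] (f : ℕ → G → M) (h1 h2) {n : ℕ} {x : G}
    (hx : x ∈ φ.F n) : φ.lift f h1 h2 (φ.c n x) = f n x := by
  unfold lift c pr
  erw [QuotientAddGroup.lift_mk']
  simp [hx]

theorem ind {P : φ.V → Prop} (h0 : P 0) (ha : ∀ v w, P v → P w → P (v + w))
    (hn : ∀ v, P v → P (-v)) (hc : ∀ n x, x ∈ φ.F n → P (φ.c n x)) (v : φ.V) : P v := by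
  obtain ⟨r, rfl⟩ : ∃ r, φ.pr r = v := QuotientAddGroup.mk'_surjective _ v
  have hc' : ∀ p : ℕ × G, P (φ.pr (FreeAbelianGroup.of p)) := by
    rintro ⟨n, x⟩
    by_cases hx : x ∈ φ.F n
    · exact hc n x hx
    · have := φ.c_out hx
      unfold c at this
      rw [this]; exact h0
  induction r using FreeAbelianGroup.induction_on with
  | zero => simpa using h0
  | of p => exact hc' p
  | neg p _ => rw [map_neg]; exact hn _ (hc' p)
  | add r s hr hs => rw [map_add]; exact ha _ _ hr hs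

theorem hom_ext {M : Type*} [AddCommGroup M] {f g : φ.V →+ M}
    (h : ∀ n x, x ∈ φ.F n → f (φ.c n x) = g (φ.c n x)) : f = g := by
  ext v
  refine φ.ind (P := fun v => f v = g v) (by simp) ?_ ?_ h v
  · intro v w hv hw; simp [hv, hw]
  · intro v hv; simp [hv]

open Classical IsMulCommutative in
theorem faith {n : ℕ} {x : G} (hx : x ∈ φ.F n) (h : φ.c n x = 0) : x ∈ φ.F (n + 1) := by
  have hc : ∀ y ∈ φ.F n, (QuotientGroup.mk y : G ⧸ φ.F (n + 1)) ∈ Subgroup.center _ := by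
    intro y hy
    rw [Subgroup.mem_center_iff]
    intro q
    obtain ⟨g, rfl⟩ := QuotientGroup.mk_surjective q
    rw [← QuotientGroup.mk_mul, ← QuotientGroup.mk_mul, QuotientGroup.eq]
    have := φ.comm hy (φ.top g)
    rw [cm_eq] at this
    simpa [mul_assoc] using this
  let f : ℕ → G → Additive (Subgroup.center (G ⧸ φ.F (n + 1))) := fun m y =>
    if hy : m = n ∧ y ∈ φ.F n then Additive.ofMul ⟨_, hc y hy.2⟩ else 0
  have := φ.lift_c f (by
    intro m y z hy hz
    by_cases hm : m = n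
    · subst hm
      simp only [f, true_and, hy, hz, mul_mem hy hz, dif_pos]
      rfl
    · simp [f, hm]) (by
    intro m y hy
    by_cases hm : m = n
    · subst hm
      simp only [f, true_and, φ.anti m hy, dif_pos]
      exact congrArg Additive.ofMul (Subtype.ext ((QuotientGroup.eq_one_iff y).mpr hy))
    · simp [f, hm]) hx
  rw [h, map_zero] at this
  simp only [f, true_and, hx, dif_pos] at this
  exact (QuotientGroup.eq_one_iff x).mp (congrArg Subtype.val (Additive.ofMul.injective this.symm))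

/-- the operator attached to one homogeneous element -/
noncomputable def B1 {s : ℕ} {z : G} (hz : z ∈ φ.F s) : φ.V →+ φ.V :=
  φ.lift (fun n y => φ.c (n + s) (cm y z)) (by
    intro n x y hx hy
    rw [cm_mul_left, φ.c_mul (φ.cj_mem (φ.comm hx hz) y) (φ.comm hy hz), φ.c_cj (φ.comm hx hz)])
    (by
    intro n x hx
    exact φ.c_zero (φ.le (by omega) (φ.comm hx hz)))

theorem B1_c {s : ℕ} {z : G} (hz : z ∈ φ.F s) {n : ℕ} {y : G} (hy : y ∈ φ.F n) :
    φ.B1 hz (φ.c n y) = φ.c (n + s) (cm y z) := φ.lift_c _ _ _ hy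

open Classical in
/-- the bracket -/
noncomputable def B : φ.V →+ φ.V →+ φ.V :=
  φ.lift (fun s z => if hz : z ∈ φ.F s then φ.B1 hz else 0) (by
    intro s z z' hz hz'
    simp only [hz, hz', mul_mem hz hz', dif_pos]
    refine φ.hom_ext fun n y hy => ?_
    rw [AddMonoidHom.add_apply, B1_c _ _ hy, B1_c _ _ hy, B1_c _ _ hy, cm_mul_right,
      φ.c_mul (φ.comm hy hz') (φ.cj_mem (φ.comm hy hz) z'), φ.c_cj (φ.comm hy hz), add_comm])
    (by
    intro s z hz
    simp only [φ.anti s hz, dif_pos]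
    refine φ.hom_ext fun n y hy => ?_
    rw [B1_c _ _ hy]
    exact φ.c_zero (φ.le (by omega) (φ.comm hy hz)))

theorem B_c {s n : ℕ} {z y : G} (hz : z ∈ φ.F s) (hy : y ∈ φ.F n) :
    φ.B (φ.c s z) (φ.c n y) = φ.c (n + s) (cm y z) := by
  unfold B
  rw [φ.lift_c _ _ _ hz]
  simp only [hz, dif_pos]
  exact φ.B1_c hz hy

theorem B_anti (v w : φ.V) : φ.B v w = -φ.B w v := by
  have : φ.B = -φ.B.flip := by
    refine φ.hom_ext fun s z hz => φ.hom_ext fun n y hy => ?_
    simp only [AddMonoidHom.neg_apply, AddMonoidHom.flip_apply]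
    rw [φ.B_c hz hy, φ.B_c hy hz, ← φ.c_inv (φ.comm hz hy), cm_inv, add_comm]
  conv_lhs => rw [this]
  rfl

theorem B_cyc (x y z : φ.V) : φ.B z (φ.B y x) + φ.B x (φ.B z y) + φ.B y (φ.B x z) = 0 := by
  induction x using φ.ind with
  | h0 => simp
  | ha v w hv hw => simp only [map_add, AddMonoidHom.add_apply]; linear_combination (norm := abel) hv + hw
  | hn v hv => simp only [map_neg, AddMonoidHom.neg_apply]; linear_combination (norm := abel) -hv
  | hc i x hx =>
  induction y using φ.ind with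
  | h0 => simp
  | ha v w hv hw => simp only [map_add, AddMonoidHom.add_apply]; linear_combination (norm := abel) hv + hw
  | hn v hv => simp only [map_neg, AddMonoidHom.neg_apply]; linear_combination (norm := abel) -hv
  | hc j y hy =>
  induction z using φ.ind with
  | h0 => simp
  | ha v w hv hw => simp only [map_add, AddMonoidHom.add_apply]; linear_combination (norm := abel) hv + hw
  | hn v hv => simp only [map_neg, AddMonoidHom.neg_apply]; linear_combination (norm := abel) -hv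
  | hc k z hz =>
  have key : ∀ {i j k : ℕ} {x y z : G}, x ∈ φ.F i → y ∈ φ.F j → z ∈ φ.F k → ∀ N, N = i + j + k →
      y⁻¹ * cm (cm x y⁻¹) z * y ∈ φ.F N ∧
      φ.c N (y⁻¹ * cm (cm x y⁻¹) z * y) = -φ.B (φ.c k z) (φ.B (φ.c j y) (φ.c i x)) := by
    rintro i j k x y z hx hy hz N rfl
    have h1 := φ.comm hx (inv_mem hy)
    refine ⟨φ.cj_mem (φ.comm h1 hz) y, ?_⟩
    rw [φ.c_cj (φ.comm h1 hz), ← φ.B_c hz h1, ← φ.B_c (inv_mem hy) hx, φ.c_inv hy]
    simp
  obtain ⟨m1, e1⟩ := key hx hy hz _ rfl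
  obtain ⟨m2, e2⟩ := key hy hz hx (i + j + k) (by omega)
  obtain ⟨m3, e3⟩ := key hz hx hy (i + j + k) (by omega)
  have := congrArg (φ.c (i + j + k)) (hw x y z)
  rw [φ.c_mul (mul_mem m1 m2) m3, φ.c_mul m1 m2, e1, e2, e3, c_one] at this
  linear_combination (norm := abel) -this

theorem B_jac (x y z : φ.V) : φ.B (φ.B x y) z = φ.B x (φ.B y z) - φ.B y (φ.B x z) := by
  have := φ.B_cyc x y z
  rw [φ.B_anti z y, φ.B_anti y x, map_neg, map_neg, ← φ.B_anti] at this
  linear_combination (norm := abel) this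

/-- the basic model -/
noncomputable def rep : Rep G φ.V where
  F := φ.F
  c := φ.c
  β s z := φ.B (φ.c s z)
  anti := φ.anti
  comm := φ.comm
  c_mul _ := φ.c_mul
  c_zero := φ.c_zero
  c_cm _ hy hz := (φ.B_c hz hy).symm
  β_one s := by rw [c_one, map_zero]

end Fil

/-- the identities hold on all iterated brackets of a right Engel element -/
theorem Rep.ideal (k : ℕ) : ∀ (G V : Type u) [Group G] [AddCommGroup V] (ρ : Rep G V)
    (ys : List (ℕ × G)), ys.length = k → (∀ p ∈ ys, 1 ≤ p.1 ∧ p.2 ∈ ρ.F p.1) →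
    ∀ (n : ℕ) (u : G), 1 ≤ n → u ∈ ρ.F n → RE 4 u →
      (∀ (m : ℕ) (z : ℕ → ℕ × G), (∀ i, 1 ≤ (z i).1 ∧ (z i).2 ∈ ρ.F (z i).1) →
        Ws (fun i => ρ.β (z i).1 (z i).2) (ys.foldl (fun v p => ρ.β p.1 p.2 v) (ρ.c n u))
          (Kl m) = 0) ∧
      ∀ (s : ℕ) (x : G), x ∈ ρ.F s → ρ.β s x (ρ.β s x (ρ.β s x (ρ.β s x
        (ys.foldl (fun v p => ρ.β p.1 p.2 v) (ρ.c n u))))) = 0 := by
  induction k with
  | zero =>
    intro G V _ _ ρ ys hl _ n u hn hu hE
    obtain rfl := List.length_eq_zero_iff.mp hl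
    refine ⟨fun m z hz => ρ.engel m z hz hn hu hE, fun s x hx => ?_⟩
    have h1 := ρ.comm hu hx
    have h2 := ρ.comm h1 hx
    have h3 := ρ.comm h2 hx
    have h4 : cm (cm (cm (cm u x) x) x) x = 1 := hE x
    rw [List.foldl_nil, ← ρ.c_cm hn hu hx, ← ρ.c_cm (by omega) h1 hx, ← ρ.c_cm (by omega) h2 hx,
      ← ρ.c_cm (by omega) h3 hx, h4, ρ.c_one]
  | succ k ih =>
    intro G V _ _ ρ ys hl hy n u hn hu hE
    obtain ⟨⟨s, y⟩, ys, rfl⟩ := List.exists_cons_of_length_eq_add_one hl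
    obtain ⟨hs, hys⟩ : 1 ≤ s ∧ y ∈ ρ.F s := hy _ List.mem_cons_self
    have dg : ∀ (j : ℕ) (g : G) (p : V × V),
        (ρ.dbl s hs).β j (g, g) p = (ρ.β j g p.1, ρ.β j g p.2) := by
      intro j g p; simp [Rep.dbl, ρ.β_one]
    have h := ih (G × G) (V × V) (ρ.dbl s hs) (ys.map fun p => (p.1, (p.2, p.2)))
      (by simpa using hl) (by
        intro p hp
        obtain ⟨q, hq, rfl⟩ := List.mem_map.mp hp
        obtain ⟨h1, h2⟩ := hy q (List.mem_cons_of_mem _ hq)
        exact ⟨h1, h2, by simp⟩)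
      n (u, u * cm u y) hn (ρ.mem_dF.mpr ⟨hu, ρ.comm hu hys⟩) (by
        intro g
        have : ∀ (j : ℕ) (a b : G), (fun c : G × G => c⁻¹ * (g⁻¹ * c * g))^[j] (a, b) =
            ((fun c : G => c⁻¹ * (g.1⁻¹ * c * g.1))^[j] a,
              (fun c : G => c⁻¹ * (g.2⁻¹ * c * g.2))^[j] b) := by
          intro j a b
          induction j with
          | zero => rfl
          | succ j ih => simp only [Function.iterate_succ_apply', ih]; rfl
        have h2 : (fun c : G => c⁻¹ * (g.2⁻¹ * c * g.2))^[4] (u * cm u y) = 1 := by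
          have e : ∀ (j : ℕ) (t : G), (fun c : G => c⁻¹ * (g.2⁻¹ * c * g.2))^[j] (y⁻¹ * t * y) =
              y⁻¹ * (fun c : G => c⁻¹ * ((y * g.2 * y⁻¹)⁻¹ * c * (y * g.2 * y⁻¹)))^[j] t * y := by
            intro j t
            induction j with
            | zero => rfl
            | succ j ih => simp only [Function.iterate_succ_apply', ih]; group
          rw [← cj_eq, e, hE]; simp
        rw [this, hE, h2]; rfl)
    have e1 : ∀ (l : List (ℕ × G)) (p : V × V),
        ((l.map fun p => (p.1, (p.2, p.2))).foldl (fun v p => (ρ.dbl s hs).β p.1 p.2 v) p).2 =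
          l.foldl (fun v p => ρ.β p.1 p.2 v) p.2 := by
      intro l
      induction l with
      | nil => intro p; rfl
      | cons q l ihl => intro p; simp only [List.map_cons, List.foldl_cons, ihl, dg]
    have e2 : ((ρ.dbl s hs).c n (u, u * cm u y)).2 = ρ.β s y (ρ.c n u) := by
      simp [Rep.dbl, ρ.c_cm hn hu hys]
    rw [List.foldl_cons, ← e2, ← e1]
    refine ⟨fun m z hz => ?_, fun t x hx => ?_⟩
    · have h1 := h.1 m (fun i => ((z i).1, ((z i).2, (z i).2)))
        (fun i => ⟨(hz i).1, (hz i).2, by simp⟩)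
      have e3 : ∀ (p : V × V) (l : List (List ℕ)),
          (Ws (fun i => (ρ.dbl s hs).β (z i).1 ((z i).2, (z i).2)) p l).2 =
            Ws (fun i => ρ.β (z i).1 (z i).2) p.2 l := by
        intro p l
        have e4 : ∀ w, (Wd (fun i => (ρ.dbl s hs).β (z i).1 ((z i).2, (z i).2)) p w).2 =
            Wd (fun i => ρ.β (z i).1 (z i).2) p.2 w := by
          intro w
          induction w with
          | nil => rfl
          | cons i w ihw => simp only [Wd, List.foldr_cons, dg] at ihw ⊢; rw [ihw]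
        induction l with
        | nil => rfl
        | cons w l ihl => simp only [Ws, List.map_cons, List.sum_cons, Prod.snd_add, e4] at ihl ⊢; rw [ihl]
      rw [← e3, h1]; rfl
    · have h1 := congrArg Prod.snd (h.2 t (x, x) ⟨hx, by simp⟩)
      simpa only [dg, Prod.snd_zero] using h1

end Pool.Agent.P.MP_9682d1_al.E22
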