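import Pool.Agent.P.MP_9682d1_al.E22.Cert

set_option autoImplicit false

namespace Pool.Agent.P.MP_9682d1_al.E22

universe u

theorem covers_sound {P : List (List Bool)} {A : List (List Bool × ℕ)} (h : covers P A = true)
    (s : List Bool) : ∀ t ∈ A, t.2 ≤ hc s → ∃ q ∈ P, q <:+: t.1 ++ s := by
  simp only [covers, List.all_eq_true, Bool.and_eq_true, decide_eq_true_eq, Bool.or_eq_true,
    List.any_eq_true] at h
  induction s with
  | nil => intro t ht h1; have := (h t ht).1; simp only [hc] at h1; omega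
  | cons b s ih =>
    intro t ht h1
    have e : t.1 ++ b :: s = t.1 ++ [b] ++ s := by simp
    rcases (h t ht).2 b (by cases b <;> simp) with ⟨q, hq, h2⟩ | ⟨t', ht', h2, h3⟩
    · exact ⟨q, hq, e ▸ h2.trans (List.prefix_append _ _).isInfix⟩
    · have := LD.hc_append [b] s
      obtain ⟨q, hq, h4⟩ := ih t' ht' (by simp only [List.singleton_append] at this; omega)
      obtain ⟨z, hz⟩ := h2
      exact ⟨q, hq, h4.trans (List.IsSuffix.isInfix ⟨z, by rw [e, ← hz]; simp⟩)⟩

theorem mu_le (s : List Bool) : mu s ≤ s.length * 16 ^ hc s := by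
  induction s with
  | nil => simp [mu]
  | cons b s ih =>
    cases b <;> simp only [mu, hc, List.length_cons, pow_succ] <;>
      nlinarith [Nat.zero_le (s.length * 16 ^ hc s), Nat.zero_le (16 ^ hc s)]

namespace LD

variable {V : Type u} [AddCommGroup V] (L : LD V)

abbrev Y := {v : V // L.Hm v}

def lv : Option L.Y → V
  | none => L.a
  | some y => y.1

def gev (w : List (Option L.Y)) : AddMonoid.End V := (w.map fun o => L.B (L.lv o)).prod

def gs (w : List (Option L.Y)) : List Bool := w.map Option.isNone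

theorem gev_append (u w : List (Option L.Y)) : L.gev (u ++ w) = L.gev u * L.gev w := by
  simp [gev]

theorem gs_append (u w : List (Option L.Y)) : L.gs (u ++ w) = L.gs u ++ L.gs w := by
  simp [gs]

def ro (ys : List L.Y) : ℕ → Option L.Y
  | 0 => none
  | i + 1 => some (ys.getD i ⟨L.a, L.ha⟩)

theorem ro_lab (u : List (Option L.Y)) (pre : List L.Y) :
    (lab (L.gs u) pre.length).map (L.ro (pre ++ u.filterMap id)) = u := by
  induction u generalizing pre with
  | nil => rfl
  | cons o u ih =>
    cases o with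
    | none =>
      have := ih pre
      simp only [gs, List.map_cons, Option.isNone_none, lab, ro] at this ⊢
      simpa using this
    | some y =>
      have := ih (pre ++ [y])
      simp only [gs, List.map_cons, Option.isNone_some, lab, ro, List.length_append,
        List.length_singleton, List.append_assoc, List.singleton_append] at this ⊢
      simpa using this

theorem gs_ro (ys : List L.Y) (x : List ℕ) : L.gs (x.map (L.ro ys)) = shp x := by
  simp only [gs, shp, List.map_map]
  refine List.map_congr_left fun i _ => ?_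
  cases i <;> simp [ro]

def Vn (N : ℕ) : AddSubgroup (AddMonoid.End V) :=
  AddSubgroup.closure {x | ∃ w, hc (L.gs w) = 13 ∧ w.length = N ∧ x = L.gev w}

theorem step {p : ℕ} {c : ℤ} {P : List (List Bool)} {A : List (List Bool × ℕ)}
    (hO : ∀ s ∈ P, Ok p c s) (hA : covers P A = true) {j : ℕ} (hj : j ≤ 13) (h0 : ([], j) ∈ A)
    {N : ℕ} (IH : ∀ w, hc (L.gs w) = 13 → w.length < N → L.gev w = 0) (m : ℕ) :
    ∀ w, hc (L.gs w) = 13 → w.length = N → mu (L.gs w) = m →
      c ^ (m + 1) • L.gev w ∈ (L.Vn N).map (zsmulAddGroupHom (p : ℤ)) := by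
  induction m using Nat.strong_induction_on with
  | _ m ih =>
  intro w h1 h2 h3
  obtain ⟨q, hq, s1, s2, hs⟩ := covers_sound hA (L.gs w) _ h0 (h1 ▸ hj)
  obtain ⟨lu, r, rfl, hlu, -⟩ := List.map_eq_append_iff.mp hs.symm
  obtain ⟨l, u, rfl, -, hu⟩ := List.map_eq_append_iff.mp hlu
  obtain rfl : q = L.gs u := hu.symm
  obtain ⟨T, hT⟩ := hO _ hq
  set ys := u.filterMap id
  let π := QuotientAddGroup.mk' ((L.Vn N).map (zsmulAddGroupHom (p : ℤ)))
  let Φ := (zsmulAddGroupHom (c ^ m)).comp (π.comp
    ((AddMonoidHom.mulRight (L.gev r)).comp (AddMonoidHom.mulLeft (L.gev l))))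
  have hΦ : ∀ x : List ℕ, Φ (L.ev (fun i => L.lv (L.ro ys i)) x) =
      c ^ m • π (L.gev (l ++ x.map (L.ro ys) ++ r)) := by
    intro x
    simp only [gev_append]
    simp [Φ, ev, gev, Function.comp_def]
  have hπ : ∀ x, π x = 0 ↔ x ∈ (L.Vn N).map (zsmulAddGroupHom (p : ℤ)) :=
    fun x => QuotientAddGroup.eq_zero_iff x
  simp only [gs_append, hc_append, List.length_append, mu_append] at h1 h2 h3
  have hl : (L.gs u).length = u.length := by simp [gs]
  have key := L.chk_sound (fun i => L.lv (L.ro ys i))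
    (by intro i; cases i; exacts [L.ha, Subtype.prop _]) rfl Φ hT (by
      intro x e1 e2
      rw [hΦ, smul_comm, ← map_zsmul π, (hπ _).mpr, smul_zero]
      refine ⟨_, AddSubgroup.subset_closure ⟨_, ?_, ?_, rfl⟩, rfl⟩
      · simp only [gs_append, hc_append, gs_ro, e1, h1]
      · simp only [List.length_append, List.length_map, e2, hl, h2]) (by
      intro x e1 e2 e3
      have hlt : mu (L.gs (l ++ x.map (L.ro ys) ++ r)) < m := by
        simp only [gs_append, mu_append, gs_ro, e1, ← h3]
        have : 0 < 16 ^ hc (L.gs r) := by positivity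
        nlinarith
      have := ih _ hlt (l ++ x.map (L.ro ys) ++ r)
        (by simp only [gs_append, hc_append, gs_ro, e1, h1])
        (by simp only [List.length_append, List.length_map, e2, hl, h2]) rfl
      obtain ⟨d, hd⟩ := Nat.exists_eq_add_of_lt hlt
      rw [hΦ, hd, add_right_comm, pow_add, mul_comm, mul_smul, ← map_zsmul π,
        (hπ _).mpr this, smul_zero]) (by
      intro l' i k r' hi hk e1 e2
      obtain ⟨i, rfl⟩ := Nat.exists_eq_succ_of_ne_zero hi
      obtain ⟨k, rfl⟩ := Nat.exists_eq_succ_of_ne_zero hk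
      have := IH (l ++ (l'.map (L.ro ys) ++ some ⟨L.B (ys.getD i ⟨L.a, L.ha⟩).1
          (ys.getD k ⟨L.a, L.ha⟩).1, L.hB (Subtype.prop _) (Subtype.prop _)⟩ ::
          r'.map (L.ro ys)) ++ r) (by
          rw [← h1, ← e1, ← L.gs_ro ys]
          simp [gs, hc_append, hc, ro, add_assoc]) (by
          simp only [List.length_append, List.length_cons, List.length_map] at e2 ⊢; omega)
      rw [hΦ, hΦ]
      congr 2
      rw [← sub_eq_zero, ← this]
      simp only [gev, List.map_append, List.map_cons, List.prod_append, List.prod_cons, ro, lv,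
        L.jac]
      noncomm_ring)
  have e := L.ro_lab u []
  simp only [List.length_nil, List.nil_append] at e
  rw [hΦ, e, smul_smul, ← pow_succ', ← map_zsmul π] at key
  exact (hπ _).mp key

theorem wz_aux (N : ℕ) : ∀ w, hc (L.gs w) = 13 → w.length = N → L.gev w = 0 := by
  induction N using Nat.strong_induction_on with
  | _ N ih =>
  have IH : ∀ w, hc (L.gs w) = 13 → w.length < N → L.gev w = 0 := fun w h1 h2 => ih _ h2 w h1 rfl
  have d : ∀ {p : ℕ} {P A} {j : ℕ}, (∀ s ∈ P, Ok p 1 s) → covers P A = true → j ≤ 13 →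
      ([], j) ∈ A → ∀ x ∈ L.Vn N, ∃ y ∈ L.Vn N, (p : ℤ) • y = x := by
    intro p P A j h1 h2 h3 h4
    have : L.Vn N ≤ (L.Vn N).map (zsmulAddGroupHom (p : ℤ)) := by
      refine (AddSubgroup.closure_le _).mpr ?_
      rintro x ⟨w, e1, e2, rfl⟩
      simpa using L.step h1 h2 h3 h4 IH _ w e1 e2 rfl
    exact fun x hx => this hx
  have d30 : ∀ (e : ℕ), ∀ x ∈ L.Vn N, ∃ y ∈ L.Vn N, (30 ^ e : ℤ) • y = x := by
    intro e
    induction e with
    | zero => exact fun x hx => ⟨x, hx, by simp⟩
    | succ e ihe =>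
      intro x hx
      obtain ⟨y1, h1, rfl⟩ := ihe x hx
      obtain ⟨y2, h2, rfl⟩ := d oks2 cov2 (j := 8) (by norm_num) List.mem_cons_self y1 h1
      obtain ⟨y3, h3, rfl⟩ := d oks3 cov3 (j := 7) (by norm_num) List.mem_cons_self y2 h2
      obtain ⟨y, hy, rfl⟩ := d oks5 cov5 (j := 13) (by norm_num) List.mem_cons_self y3 h3
      refine ⟨y, hy, ?_⟩
      simp only [smul_smul]
      congr 1
  have d0 : ∀ x ∈ L.Vn N, (27000 ^ (N * 16 ^ 13 + 1) : ℤ) • x = 0 := by
    intro x hx
    induction hx using AddSubgroup.closure_induction with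
    | mem x hx =>
      obtain ⟨w, e1, e2, rfl⟩ := hx
      obtain ⟨y, -, hy⟩ := L.step oks0 cov0 (j := 5) (by norm_num) List.mem_cons_self IH _ w e1 e2 rfl
      have hm := mu_le (L.gs w)
      have hl : (L.gs w).length = N := by simpa [gs] using e2
      rw [e1, hl] at hm
      obtain ⟨d, hd⟩ := Nat.exists_eq_add_of_le hm
      rw [hd, add_right_comm, pow_add, mul_comm, mul_smul, ← hy]
      simp
    | zero => simp
    | add x y _ _ hx hy => rw [zsmul_add, hx, hy, add_zero]
    | neg x _ hx => rw [zsmul_neg, hx, neg_zero]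
  intro w e1 e2
  obtain ⟨y, hy, e⟩ := d30 (3 * (N * 16 ^ 13 + 1)) _ (AddSubgroup.subset_closure ⟨w, e1, e2, rfl⟩)
  rw [← e, pow_mul]
  exact d0 y hy

/-- operator words with at least 13 letters `ad a` vanish -/
theorem wz (w : List (Option L.Y)) (h : 13 ≤ hc (L.gs w)) : L.gev w = 0 := by
  induction w with
  | nil => simp [gs, hc] at h
  | cons o w ih =>
    rcases h.eq_or_lt with h | h
    · exact L.wz_aux _ _ h.symm rfl
    · have := L.gev_append [o] w
      rw [ih (by cases o <;> simp only [gs, List.map_cons, Option.isNone, hc] at h ⊢ <;> omega),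
        mul_zero] at this
      exact this

end LD

end Pool.Agent.P.MP_9682d1_al.E22
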