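import Pool.Agent.P.MP_9682d1_al.E22.Lie
import Pool.Agent.P.MP_9682d1_al.E22.Gr
import Pool.Agent.P.MP_9682d1_al.C.Glue

set_option autoImplicit false

namespace Pool.Agent.P.MP_9682d1_al.E22

open Pool.Agent.P.MP_9682d1_al.C Subgroup

open scoped commutatorElement

universe u

variable {G : Type u} [Group G]

theorem lcs_cm (j : ℕ) : ∀ (i : ℕ) {x y : G}, x ∈ (⊤ : Subgroup G).lowerCentralSeries i →
    y ∈ (⊤ : Subgroup G).lowerCentralSeries j →
      cm x y ∈ (⊤ : Subgroup G).lowerCentralSeries (i + j + 1) := by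
  induction j with
  | zero => exact fun i x y hx _ => cm_mem_lcs hx trivial
  | succ j ih =>
    intro i x y hx hy
    refine cm_closure ?_ ((Subgroup.mem_lowerCentralSeries_succ_iff _ _ _).mp hy)
    rintro _ ⟨p, hp, q, -, rfl⟩
    have hN : ((⊤ : Subgroup G).lowerCentralSeries (i + (j + 1) + 1)).Normal := inferInstance
    have h2 : cm (cm q x⁻¹) p⁻¹ ∈ (⊤ : Subgroup G).lowerCentralSeries (i + (j + 1) + 1) := by
      have := ih (i + 1) (x := cm q x⁻¹)
        (by rw [← cm_inv]; exact inv_mem (cm_mem_lcs (inv_mem hx) trivial)) (inv_mem hp)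
      rwa [show i + 1 + j + 1 = i + (j + 1) + 1 by omega] at this
    have h3 : cm (cm x p) q ∈ (⊤ : Subgroup G).lowerCentralSeries (i + (j + 1) + 1) :=
      cm_mem_lcs (ih i hx hp) trivial
    have e : cm x ⁅p, q⁆ = q * ((x⁻¹ * cm (cm q x⁻¹) p⁻¹ * x) * (p * cm (cm x p) q * p⁻¹)) * q⁻¹ := by
      simp only [cm, commutatorElement_def]; group
    rw [e]
    exact hN.conj_mem _ (mul_mem (by simpa using hN.conj_mem _ h2 x⁻¹) (hN.conj_mem _ h3 p)) q

/-- the weight filtration -/
inductive Fi (W : ℕ) (a : G) (S : Set G) : ℕ → G → Prop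
  | ga : Fi W a S W a
  | gs {s : G} : s ∈ S → Fi W a S 1 s
  | one (n : ℕ) : Fi W a S n 1
  | mul {n : ℕ} {x y : G} : Fi W a S n x → Fi W a S n y → Fi W a S n (x * y)
  | inv {n : ℕ} {x : G} : Fi W a S n x → Fi W a S n x⁻¹
  | cm {i j : ℕ} {x y : G} : Fi W a S i x → Fi W a S j y → Fi W a S (i + j) (cm x y)
  | mono {n : ℕ} {x : G} : Fi W a S (n + 1) x → Fi W a S n x

def fil (W : ℕ) (a : G) {S : Set G} (hS : closure S = ⊤) : Fil G where
  F n := { carrier := {x | Fi W a S n x}, one_mem' := .one n, mul_mem' := .mul, inv_mem' := .inv }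
  anti _ _ := .mono
  comm := .cm
  top x := by
    have hx : x ∈ closure S := hS ▸ mem_top x
    induction hx using closure_induction with
    | mem x hx => exact .gs hx
    | one => exact .one 1
    | mul x y _ _ hx hy => exact .mul hx hy
    | inv x _ hx => exact .inv hx

theorem Fi.lcs {W : ℕ} (hW : 1 ≤ W) {a : G} {S : Set G} {n : ℕ} {x : G} (h : Fi W a S n x) :
    x ∈ (⊤ : Subgroup G).lowerCentralSeries ((n - 1) / W) := by
  induction h with
  | ga => rw [Nat.div_eq_of_lt (by omega)]; trivial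
  | gs _ => simp
  | one n => exact one_mem _
  | mul _ _ hx hy => exact mul_mem hx hy
  | inv _ hx => exact inv_mem hx
  | @cm i j x y _ _ hx hy =>
    refine Subgroup.lowerCentralSeries_antitone _ ?_ (lcs_cm _ _ hx hy)
    have h1 := Nat.lt_mul_div_succ (i - 1) hW
    have h2 := Nat.lt_mul_div_succ (j - 1) hW
    refine Nat.lt_succ_iff.mp (Nat.div_lt_of_lt_mul ?_)
    have : W * ((i - 1) / W + (j - 1) / W + 1).succ =
      W * ((i - 1) / W + 1) + W * ((j - 1) / W + 1) := by rw [Nat.succ_eq_add_one]; ring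
    omega
  | mono _ hx => exact Subgroup.lowerCentralSeries_antitone _ (Nat.div_le_div_right (by omega)) hx

inductive Mon (a : G) (S : Set G) : ℕ → ℕ → G → Prop
  | ga : Mon a S 1 0 a
  | gs {s : G} : s ∈ S → Mon a S 0 1 s
  | cm {j l j' l' : ℕ} {g g' : G} : Mon a S j l g → Mon a S j' l' g' →
      Mon a S (j + j') (l + l') (cm g g')

theorem Mon.fi {a : G} {S : Set G} (W : ℕ) {j l : ℕ} {g : G} (h : Mon a S j l g) :
    Fi W a S (j * W + l) g := by
  induction h with
  | ga => simpa using Fi.ga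
  | gs hs => simpa using Fi.gs hs
  | cm _ _ h1 h2 => convert h1.cm h2 using 1; ring

theorem Mon.pos {a : G} {S : Set G} {W : ℕ} (hW : 1 ≤ W) {j l : ℕ} {g : G} (h : Mon a S j l g) :
    1 ≤ j * W + l := by
  induction h with
  | ga => omega
  | gs _ => omega
  | cm _ _ h1 h2 => rw [add_mul]; omega

section
variable (W : ℕ) (a : G) {S : Set G} (hS : closure S = ⊤)

theorem c_mon {j l j' l' : ℕ} {g g' : G} (h : Mon a S j l g) (h' : Mon a S j' l' g') :
    (fil W a hS).c ((j + j') * W + (l + l')) (cm g g') =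
      (fil W a hS).B ((fil W a hS).c (j' * W + l') g') ((fil W a hS).c (j * W + l) g) := by
  rw [(fil W a hS).B_c (h'.fi W) (h.fi W)]
  congr 1; ring

noncomputable def Sp (n : ℕ) : AddSubgroup (fil W a hS).V :=
  AddSubgroup.closure {v | ∃ j l g, Mon a S j l g ∧ j * W + l = n ∧ v = (fil W a hS).c n g}

theorem c_sp {n : ℕ} {x : G} (h : Fi W a S n x) : (fil W a hS).c n x ∈ Sp W a hS n := by
  induction h with
  | ga => exact AddSubgroup.subset_closure ⟨1, 0, a, .ga, by simp, rfl⟩
  | gs hs => exact AddSubgroup.subset_closure ⟨0, 1, _, .gs hs, by simp, rfl⟩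
  | one n => rw [Fil.c_one]; exact zero_mem _
  | mul h1 h2 hx hy => rw [(fil W a hS).c_mul h1 h2]; exact add_mem hx hy
  | inv h1 hx => rw [(fil W a hS).c_inv h1]; exact neg_mem hx
  | mono h1 _ => rw [(fil W a hS).c_zero h1]; exact zero_mem _
  | @cm i j x y h1 h2 hx hy =>
    rw [← (fil W a hS).B_c h2 h1]
    generalize (fil W a hS).c i x = v at hx
    generalize (fil W a hS).c j y = w at hy
    induction hx using AddSubgroup.closure_induction with
    | zero => simp
    | add _ _ _ _ h h' => rw [map_add]; exact add_mem h h'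
    | neg _ _ h => rw [map_neg]; exact neg_mem h
    | mem v hv =>
    induction hy using AddSubgroup.closure_induction with
    | zero => simp
    | add _ _ _ _ h h' => rw [map_add]; exact add_mem h h'
    | neg _ _ h => rw [map_neg]; exact neg_mem h
    | mem w hw =>
    obtain ⟨j1, l1, g1, m1, rfl, rfl⟩ := hv
    obtain ⟨j2, l2, g2, m2, rfl, rfl⟩ := hw
    rw [← c_mon W a hS m1 m2]
    have e : (j1 + j2) * W + (l1 + l2) = j1 * W + l1 + (j2 * W + l2) := by ring
    exact AddSubgroup.subset_closure ⟨_, _, _, m1.cm m2, e, by rw [e]⟩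

end

def WsH {V : Type u} [AddCommGroup V] (Z : ℕ → V →+ V) (l : List (List ℕ)) : V →+ V :=
  AddMonoidHom.mk' (fun u => Ws Z u l) (by
    intro u v
    have : ∀ w, Wd Z (u + v) w = Wd Z u w + Wd Z v w := by
      intro w
      induction w with
      | nil => rfl
      | cons i w ih => simp only [Wd, List.foldr_cons] at ih ⊢; rw [ih, map_add]
    simp only [Ws, funext this, List.sum_map_add])

def FoH {V : Type u} [AddCommGroup V] (β : ℕ → G → V →+ V) (ys : List (ℕ × G)) : V →+ V :=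
  AddMonoidHom.mk' (fun u => ys.foldl (fun v p => β p.1 p.2 v) u) (by
    induction ys with
    | nil => intro u v; rfl
    | cons y ys ih => intro u v; simp only [List.foldl_cons, map_add, ih])

theorem ident {W : ℕ} (hW : 1 ≤ W) {a : G} {S : Set G} (hS : closure S = ⊤) (ha : RE 4 a)
    (hE : ∀ s ∈ S, RE 4 s) (u : (fil W a hS).V) :
    (∀ (m : ℕ) (z : ℕ → ℕ × G), (∀ i, 1 ≤ (z i).1 ∧ (z i).2 ∈ (fil W a hS).F (z i).1) →
      Ws (fun i => (fil W a hS).B ((fil W a hS).c (z i).1 (z i).2)) u (Kl m) = 0) ∧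
    (fil W a hS).B ((fil W a hS).c W a) ((fil W a hS).B ((fil W a hS).c W a) ((fil W a hS).B
      ((fil W a hS).c W a) ((fil W a hS).B ((fil W a hS).c W a) u))) = 0 := by
  let φ := fil W a hS
  let P : φ.V → Prop := fun u => ∀ ys : List (ℕ × G), (∀ p ∈ ys, 1 ≤ p.1 ∧ p.2 ∈ φ.F p.1) →
    (∀ (m : ℕ) (z : ℕ → ℕ × G), (∀ i, 1 ≤ (z i).1 ∧ (z i).2 ∈ φ.F (z i).1) →
      WsH (fun i => φ.B (φ.c (z i).1 (z i).2)) (Kl m) (FoH φ.rep.β ys u) = 0) ∧
    φ.B (φ.c W a) (φ.B (φ.c W a) (φ.B (φ.c W a) (φ.B (φ.c W a) (FoH φ.rep.β ys u)))) = 0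
  have P0 : P 0 := fun ys _ => ⟨fun m z _ => by simp, by simp⟩
  have Pa : ∀ v w, P v → P w → P (v + w) := fun v w hv hw ys h =>
    ⟨fun m z hz => by simp [(hv ys h).1 m z hz, (hw ys h).1 m z hz],
      by simp [(hv ys h).2, (hw ys h).2]⟩
  have Pn : ∀ v, P v → P (-v) := fun v hv ys h =>
    ⟨fun m z hz => by simp [(hv ys h).1 m z hz], by simp [(hv ys h).2]⟩
  have Pg : ∀ n g, 1 ≤ n → g ∈ φ.F n → RE 4 g → P (φ.c n g) := fun n g hn hg hR ys h =>
    ⟨(Rep.ideal _ G φ.V φ.rep ys rfl h n g hn hg hR).1,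
      (Rep.ideal _ G φ.V φ.rep ys rfl h n g hn hg hR).2 W a Fi.ga⟩
  have Pm : ∀ {j l : ℕ} {g : G}, Mon a S j l g → P (φ.c (j * W + l) g) := by
    intro j l g h
    induction h with
    | ga => exact Pg _ _ (by omega) (Mon.ga.fi W) ha
    | gs hs => exact Pg _ _ (by omega) ((Mon.gs hs).fi W) (hE _ hs)
    | @cm j l j' l' g g' m1 m2 h1 _ =>
      rw [c_mon W a hS m1 m2]
      intro ys h
      exact h1 ((j' * W + l', g') :: ys) (List.forall_mem_cons.mpr ⟨⟨m2.pos hW, m2.fi W⟩, h⟩)
  suffices hP : P u by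
    have := hP [] (by simp)
    exact ⟨fun m z hz => this.1 m z hz, this.2⟩
  refine φ.ind P0 Pa Pn (fun n x hx => ?_) u
  have := c_sp W a hS hx
  generalize φ.c n x = v at this
  induction this using AddSubgroup.closure_induction with
  | zero => exact P0
  | add _ _ _ _ h h' => exact Pa _ _ h h'
  | neg _ _ h => exact Pn _ h
  | mem v hv => obtain ⟨j, l, g, m, rfl, rfl⟩ := hv; exact Pm m

noncomputable def ld {W : ℕ} (hW : 1 ≤ W) {a : G} {S : Set G} (hS : closure S = ⊤) (ha : RE 4 a)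
    (hE : ∀ s ∈ S, RE 4 s) : LD (fil W a hS).V where
  B := (fil W a hS).B
  anti := (fil W a hS).B_anti
  jac x y := AddMonoidHom.ext ((fil W a hS).B_jac x y)
  Hm v := ∃ p : ℕ × G, (1 ≤ p.1 ∧ p.2 ∈ (fil W a hS).F p.1) ∧ v = (fil W a hS).c p.1 p.2
  hB := by
    rintro _ _ ⟨p, hp, rfl⟩ ⟨q, hq, rfl⟩
    exact ⟨(q.1 + p.1, cm q.2 p.2), ⟨le_add_right hq.1, Fi.cm hq.2 hp.2⟩,
      (fil W a hS).B_c hp.2 hq.2⟩
  a := (fil W a hS).c W a
  ha := ⟨(W, a), ⟨hW, Fi.ga⟩, rfl⟩
  span f hf := (fil W a hS).hom_ext fun n x hx => by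
    rcases Nat.eq_zero_or_pos n with rfl | hn
    · rw [(fil W a hS).c_zero ((fil W a hS).top x)]; exact map_zero f
    · exact hf _ ⟨(n, x), ⟨hn, hx⟩, rfl⟩
  K m z hz u := by
    choose p hp e using hz
    obtain rfl : z = _ := funext e
    exact (ident hW hS ha hE u).1 m p hp
  X4 u := (ident hW hS ha hE u).2

theorem mon_zero {W : ℕ} (hW : 1 ≤ W) {a : G} {S : Set G} (hS : closure S = ⊤) (ha : RE 4 a)
    (hE : ∀ s ∈ S, RE 4 s) {j l : ℕ} {g : G} (h : Mon a S j l g) (hj : 26 ≤ j) :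
    (fil W a hS).c (j * W + l) g = 0 := by
  set L := ld hW hS ha hE
  let D : ℕ → AddSubgroup (AddMonoid.End (fil W a hS).V) := fun j =>
    AddSubgroup.closure {x | ∃ w, j ≤ hc (L.gs w) ∧ x = L.gev w}
  have Dm : ∀ i j x y, x ∈ D i → y ∈ D j → x * y ∈ D (i + j) := by
    intro i j x y hx hy
    induction hx using AddSubgroup.closure_induction with
    | zero => simp
    | add _ _ _ _ h h' => rw [add_mul]; exact add_mem h h'
    | neg _ _ h => rw [neg_mul]; exact neg_mem h
    | mem v hv =>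
    induction hy using AddSubgroup.closure_induction with
    | zero => simp
    | add _ _ _ _ h h' => rw [mul_add]; exact add_mem h h'
    | neg _ _ h => rw [mul_neg]; exact neg_mem h
    | mem w hw =>
    obtain ⟨v, h1, rfl⟩ := hv
    obtain ⟨w, h2, rfl⟩ := hw
    exact AddSubgroup.subset_closure ⟨v ++ w,
      by rw [L.gs_append, LD.hc_append]; omega, (L.gev_append v w).symm⟩
  have Dg : ∀ {j l : ℕ} {g : G}, Mon a S j l g → L.B ((fil W a hS).c (j * W + l) g) ∈ D j := by
    intro j l g h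
    induction h with
    | ga => exact AddSubgroup.subset_closure ⟨[none], le_rfl, by simp [LD.gev, LD.lv, L, ld]⟩
    | @gs s hs =>
      exact AddSubgroup.subset_closure ⟨[some ⟨_, (1, s), ⟨le_rfl, Fi.gs hs⟩, rfl⟩], Nat.zero_le _,
        by simp [LD.gev, LD.lv]⟩
    | cm m1 m2 h1 h2 =>
      rw [c_mon W a hS m1 m2]
      erw [L.jac]
      exact sub_mem (Nat.add_comm _ _ ▸ Dm _ _ _ _ h2 h1) (Dm _ _ _ _ h1 h2)
  have Dz : ∀ {j l : ℕ} {g : G}, Mon a S j l g → 13 ≤ j →
      (fil W a hS).B ((fil W a hS).c (j * W + l) g) = 0 := by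
    intro j l g h hj
    have : D j ≤ ⊥ := (AddSubgroup.closure_le _).mpr (by
      rintro _ ⟨w, h1, rfl⟩
      exact L.wz w (hj.trans h1))
    exact this (Dg h)
  cases h with
  | ga => omega
  | gs _ => omega
  | @cm j l j' l' g g' m1 m2 =>
    rw [c_mon W a hS m1 m2]
    by_cases h : 13 ≤ j
    · rw [Fil.B_anti, Dz m1 h]; simp
    · rw [Dz m2 (by omega)]; rfl

theorem local_bound (hN : Group.IsNilpotent G) {a : G} {S : Set G} (hS : closure S = ⊤)
    (ha : RE 4 a) (hE : ∀ s ∈ S, RE 4 s) :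
    (normalClosure {a}).lowerCentralSeries 25 = ⊥ := by
  obtain ⟨N, hN⟩ := Subgroup.nilpotent_iff_lowerCentralSeries.mp hN
  have hb : ∀ {x : G} {n : ℕ}, N ≤ n → x ∈ (⊤ : Subgroup G).lowerCentralSeries n → x = 1 :=
    fun h hx => mem_bot.mp (hN ▸ Subgroup.lowerCentralSeries_antitone _ h hx)
  obtain ⟨W, hW⟩ : ∃ W, W = N + 1 := ⟨_, rfl⟩
  have hW1 : 1 ≤ W := by omega
  set φ := fil W a hS
  have h1 : ∀ n, 26 * W ≤ n → ∀ x ∈ φ.F n, x ∈ φ.F (n + 1) := by
    intro n hn x hx
    refine φ.faith hx ?_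
    have : Sp W a hS n ≤ ⊥ := (AddSubgroup.closure_le _).mpr (by
      rintro _ ⟨j, l, g, m, rfl, rfl⟩
      by_cases hj : 26 ≤ j
      · exact mon_zero hW1 hS ha hE m hj
      · have : j * W ≤ 25 * W := Nat.mul_le_mul_right _ (by omega)
        rw [hb (by simp; omega) ((m.fi 1).lcs le_rfl)]
        exact φ.c_one _)
    exact this (c_sp W a hS hx)
  have h2 : ∀ k, ∀ x ∈ φ.F (26 * W), x ∈ φ.F (26 * W + k) := by
    intro k
    induction k with
    | zero => exact fun x hx => hx
    | succ k ih => exact fun x hx => h1 (26 * W + k) (by omega) x (ih x hx)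
  have h3 : normalClosure {a} ≤ φ.F W := normalClosure_le_normal (Set.singleton_subset_iff.mpr Fi.ga)
  have h4 : ∀ i, (normalClosure {a}).lowerCentralSeries i ≤ φ.F ((i + 1) * W) := by
    intro i
    induction i with
    | zero => simpa using h3
    | succ i ih =>
      rw [Subgroup.lowerCentralSeries_succ, commutator_le]
      intro p hp q hq
      rw [bracket_eq_cm, add_mul (i + 1), one_mul]
      exact φ.comm (inv_mem (ih hp)) (inv_mem (h3 hq))
  refine eq_bot_iff.mpr fun x hx => hb ?_ (Fi.lcs hW1 (h2 (N * W + 1) x (h4 25 hx)))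
  exact (Nat.le_div_iff_mul_le hW1).mpr (by omega)

/-- the normal closure of `a` in the group generated by `a` and `T` -/
def MT (a : G) (T : Set G) : Subgroup G :=
  closure {x | ∃ h ∈ closure (insert a T), x = h⁻¹ * a * h}

theorem MT_mono (a : G) {T T' : Set G} (h : T ⊆ T') : MT a T ≤ MT a T' :=
  closure_mono fun _ ⟨g, hg, e⟩ => ⟨g, closure_mono (Set.insert_subset_insert h) hg, e⟩

theorem fin_dir {X : Set G} (f : Set G → Subgroup G) (hf : Monotone f) {K : Set G}
    (h : ∀ x ∈ K, ∃ T, T.Finite ∧ T ⊆ X ∧ x ∈ f T) {x : G} (hx : x ∈ closure K) :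
    ∃ T, T.Finite ∧ T ⊆ X ∧ x ∈ f T := by
  induction hx using closure_induction with
  | mem x hx => exact h x hx
  | one => exact ⟨∅, Set.finite_empty, Set.empty_subset _, one_mem _⟩
  | mul x y _ _ hx hy =>
    obtain ⟨T, h1, h2, h3⟩ := hx
    obtain ⟨T', h4, h5, h6⟩ := hy
    exact ⟨T ∪ T', h1.union h4, Set.union_subset h2 h5,
      mul_mem (hf Set.subset_union_left h3) (hf Set.subset_union_right h6)⟩
  | inv x _ hx => obtain ⟨T, h1, h2, h3⟩ := hx; exact ⟨T, h1, h2, inv_mem h3⟩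

theorem MT_nil {a : G} (h : RE 4 a) (hl : LN (cls a)) :
    (MT a (cls a)).lowerCentralSeries 25 = ⊥ := by
  have key : ∀ i, ∀ x ∈ (MT a (cls a)).lowerCentralSeries i,
      ∃ T, T.Finite ∧ T ⊆ cls a ∧ x ∈ (MT a T).lowerCentralSeries i := by
    have h0 : ∀ x ∈ MT a (cls a), ∃ T, T.Finite ∧ T ⊆ cls a ∧ x ∈ MT a T := by
      intro x hx
      refine fin_dir (MT a) (fun _ _ => MT_mono a) ?_ hx
      rintro _ ⟨g, hg, rfl⟩
      obtain ⟨T, h1, h2, h3⟩ := fin_dir (X := cls a) (fun T => closure (insert a T))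
        (fun _ _ h => closure_mono (Set.insert_subset_insert h)) (by
          rintro y (rfl | hy)
          · exact ⟨∅, Set.finite_empty, Set.empty_subset _, subset_closure (by simp)⟩
          · exact ⟨{y}, Set.finite_singleton _, by simpa using hy, subset_closure (by simp)⟩) hg
      exact ⟨T, h1, h2, subset_closure ⟨g, h3, rfl⟩⟩
    intro i
    induction i with
    | zero => exact h0
    | succ i ih =>
      intro x hx
      refine fin_dir (fun T => (MT a T).lowerCentralSeries (i + 1))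
        (fun _ _ h => Subgroup.lowerCentralSeries_mono _ (MT_mono a h)) ?_
        ((Subgroup.mem_lowerCentralSeries_succ_iff _ _ _).mp hx)
      rintro _ ⟨p, hp, q, hq, rfl⟩
      obtain ⟨T, h1, h2, h3⟩ := ih p hp
      obtain ⟨T', h4, h5, h6⟩ := h0 q hq
      exact ⟨T ∪ T', h1.union h4, Set.union_subset h2 h5, commutator_mem_commutator
        (Subgroup.lowerCentralSeries_mono _ (MT_mono a Set.subset_union_left) h3)
        (MT_mono a Set.subset_union_right h6)⟩
  refine eq_bot_iff.mpr fun x hx => ?_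
  obtain ⟨T, h1, h2, h3⟩ := key 25 x hx
  have hT : insert a T ⊆ cls a := Set.insert_subset (self_mem_cls a) h2
  let H := closure (insert a T)
  let a' : H := ⟨a, subset_closure (by simp)⟩
  have hb := local_bound (G := H) (hl _ (h1.insert a) hT) (a := a')
    (closure_closure_coe_preimage (k := insert a T)) (RE.of_map H.subtype_injective h)
    (fun s hs => RE.of_map H.subtype_injective (h.cls (hT hs)))
  have hle : MT a T ≤ (normalClosure {a'}).map H.subtype := by
    refine (closure_le _).mpr ?_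
    rintro _ ⟨g, hg, rfl⟩
    exact ⟨(⟨g, hg⟩ : H)⁻¹ * a' * ⟨g, hg⟩, by
      simpa using (normalClosure_normal (s := {a'})).conj_mem a'
        (subset_normalClosure rfl) (⟨g, hg⟩ : H)⁻¹, rfl⟩
  have := Subgroup.lowerCentralSeries_mono 25 hle h3
  simp only [← Subgroup.map_lowerCentralSeries, hb, Subgroup.map_bot] at this
  exact this

/-- a right 4-Engel element with locally nilpotent normal closure lies in the Baer radical -/
theorem baer {a : G} (h : RE 4 a) (hl : LN (cls a)) :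
    a ∈ sSup {H : Subgroup G | IsCyclic H ∧ H.IsSubnormal} := by
  set M := MT a (cls a)
  have hi : insert a (cls a) = cls a := Set.insert_eq_of_mem (self_mem_cls a)
  have hN : (closure (cls a)).Normal := (cj_cls a).normal
  have haM : a ∈ M := subset_closure ⟨1, one_mem _, by simp⟩
  have hMN : M ≤ closure (cls a) := (closure_le _).mpr (by
    rintro _ ⟨g, _, rfl⟩; exact subset_closure (cj_mem_cls a g))
  have hM : M.IsSubnormal := by
    refine .step _ _ hMN hN.isSubnormal ((normal_subgroupOf_iff hMN).mpr fun x k hx hk => ?_)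
    have := cj_closure (E := {x | ∃ h ∈ closure (insert a (cls a)), x = h⁻¹ * a * h}) (L := M)
      (s := k⁻¹) (by
        rintro _ ⟨g, hg, rfl⟩
        exact subset_closure ⟨g * k⁻¹, mul_mem hg (hi.symm ▸ inv_mem hk), by group⟩) hx
    simpa using this
  have hz : zpowers a ≤ M := (zpowers_le).mpr haM
  have key : ∀ i, (zpowers a ⊔ M.lowerCentralSeries i).IsSubnormal := by
    intro i
    induction i with
    | zero => rwa [Subgroup.lowerCentralSeries_zero, sup_eq_right.mpr hz]
    | succ i ih =>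
      have hle : zpowers a ⊔ M.lowerCentralSeries (i + 1) ≤ zpowers a ⊔ M.lowerCentralSeries i :=
        sup_le_sup_left (M.lowerCentralSeries_antitone (Nat.le_succ i)) _
      refine .step _ _ hle ih ((normal_subgroupOf_iff_le_normalizer hle).mpr
        (sup_le (le_sup_left.trans le_normalizer) ?_))
      rw [le_normalizer_iff_commutator_le_right]
      exact (commutator_mono le_rfl (sup_le hz (M.lowerCentralSeries_le_self _))).trans le_sup_right
  have hb : M.lowerCentralSeries 25 = ⊥ := MT_nil h hl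
  have := key 25
  rw [hb, sup_bot_eq] at this
  exact le_sSup (s := {H : Subgroup G | IsCyclic H ∧ H.IsSubnormal}) ⟨inferInstance, this⟩
    (mem_zpowers a)

end Pool.Agent.P.MP_9682d1_al.E22
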